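import Pool.Agent.W540.BE.Gen

/-! Bessel's inequality for families which are orthogonal from one side. -/

set_option autoImplicit false

namespace Pool.Agent.Y149.CR

open Filter Topology ComplexConjugate
open Pool.Agent.W540.BE

section
variable {P : Type*} {N : P → ℕ}

theorem EP_mono' (hN : NormSys N) {ε : ℝ} (hε : 0 < ε) {φ ψ : P → ℝ} {B B' : ℝ}
    (hφ : ∀ p, |φ p| ≤ B) (hψ : ∀ p, |ψ p| ≤ B') (h : ∀ p, φ p ≤ ψ p) : EP N ε φ ≤ EP N ε ψ :=
  (summable_EP hN hε hφ).tsum_le_tsum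
    (fun p => mul_le_mul_of_nonneg_right (h p) (wP_nonneg ε p)) (summable_EP hN hε hψ)

theorem abs_EP_le (hN : NormSys N) {ε : ℝ} (hε : 0 < ε) {φ : P → ℝ} {B : ℝ}
    (hφ : ∀ p, |φ p| ≤ B) : |EP N ε φ| ≤ B * EP N ε fun _ => 1 := by
  rw [abs_le]
  constructor
  · have h7 := EP_le hN hε (φ := fun v => (-1) * φ v) (B := B)
      (fun v => by rw [abs_mul, abs_neg, abs_one, one_mul]; exact hφ v) (b := B)
      (fun v => by have := (abs_le.1 (hφ v)).1; linarith)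
    rw [EP_const_mul] at h7
    linarith
  · exact EP_le hN hε hφ fun v => (le_abs_self _).trans (hφ v)

/-- double sums -/
theorem EP_sum2 (hN : NormSys N) {ε : ℝ} (hε : 0 < ε) {κ κ' : Type*} (K : Finset κ)
    (K' : Finset κ') (c : κ → κ' → ℝ) (φ : κ → κ' → P → ℝ) (B : κ → κ' → ℝ)
    (hφ : ∀ k ∈ K, ∀ l ∈ K', ∀ p, |φ k l p| ≤ B k l) :
    EP N ε (fun p => ∑ k ∈ K, ∑ l ∈ K', c k l * φ k l p) =
      ∑ k ∈ K, ∑ l ∈ K', c k l * EP N ε (φ k l) := by
  have hb : ∀ k ∈ K, ∀ l ∈ K', ∀ p, |c k l * φ k l p| ≤ |c k l| * B k l := fun k hk l hl p => by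
    rw [abs_mul]
    exact mul_le_mul_of_nonneg_left (hφ k hk l hl p) (abs_nonneg _)
  rw [EP_sum hN hε K (fun k p => ∑ l ∈ K', c k l * φ k l p) (fun k => ∑ l ∈ K', |c k l| * B k l)
    (fun k hk p => (Finset.abs_sum_le_sum_abs _ _).trans (Finset.sum_le_sum fun l hl =>
      hb k hk l hl p))]
  refine Finset.sum_congr rfl fun k hk => ?_
  rw [EP_sum hN hε K' (fun l p => c k l * φ k l p) (fun l => |c k l| * B k l)
    (fun l hl p => hb k hk l hl p)]
  exact Finset.sum_congr rfl fun l _ => EP_const_mul _ _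

/-- the square of the norm of a sum -/
theorem norm_sum_sq {κ : Type*} (K : Finset κ) (c : κ → ℝ) (u : κ → ℂ) :
    ‖∑ k ∈ K, (c k : ℂ) * u k‖ ^ 2 =
      ∑ k ∈ K, ∑ l ∈ K, (c k * c l) * (u k * conj (u l)).re := by
  have h1 : ((‖∑ k ∈ K, (c k : ℂ) * u k‖ ^ 2 : ℝ) : ℂ) =
      (∑ k ∈ K, (c k : ℂ) * u k) * conj (∑ k ∈ K, (c k : ℂ) * u k) := by
    rw [Complex.mul_conj, Complex.normSq_eq_norm_sq]
  have h2 := congrArg Complex.re h1
  rw [Complex.ofReal_re] at h2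
  rw [h2, map_sum, Finset.sum_mul_sum, Complex.re_sum]
  refine Finset.sum_congr rfl fun k _ => ?_
  rw [Complex.re_sum]
  refine Finset.sum_congr rfl fun l _ => ?_
  have e5 : conj ((c l : ℂ) * u l) = (c l : ℂ) * conj (u l) := by
    rw [map_mul, Complex.conj_ofReal]
  rw [e5]
  have : (c k : ℂ) * u k * ((c l : ℂ) * conj (u l)) = ((c k * c l : ℝ) : ℂ) *
      (u k * conj (u l)) := by push_cast; ring
  rw [this, Complex.re_ofReal_mul]

/-- the product of two sums -/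
theorem re_sum_mul {κ A : Type*} (K : Finset κ) (S : Finset A) (c : κ → ℝ) (w : A → ℝ)
    (G : κ → ℂ) (u : A → ℂ) :
    ((∑ k ∈ K, (c k : ℂ) * G k) * ∑ a ∈ S, (w a : ℂ) * u a).re =
      ∑ k ∈ K, ∑ a ∈ S, (c k * w a) * (G k * u a).re := by
  rw [Finset.sum_mul_sum, Complex.re_sum]
  refine Finset.sum_congr rfl fun k _ => ?_
  rw [Complex.re_sum]
  refine Finset.sum_congr rfl fun a _ => ?_
  have : (c k : ℂ) * G k * ((w a : ℂ) * u a) = ((c k * w a : ℝ) : ℂ) * (G k * u a) := by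
    push_cast; ring
  rw [this, Complex.re_ofReal_mul]

theorem sum_div2 {κ₁ κ₂ : Type*} (K₁ : Finset κ₁) (K₂ : Finset κ₂) (c : κ₁ → κ₂ → ℝ)
    (φ : κ₁ → κ₂ → ℝ) (r : ℝ) : ∑ k ∈ K₁, ∑ l ∈ K₂, c k l * (φ k l / r) =
    (∑ k ∈ K₁, ∑ l ∈ K₂, c k l * φ k l) / r := by
  rw [Finset.sum_div]
  refine Finset.sum_congr rfl fun k _ => ?_
  rw [Finset.sum_div]
  exact Finset.sum_congr rfl fun l _ => by ring

/-- **Bessel's inequality for one-sided orthogonality.** -/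
theorem bessel (hN : NormSys N) {lm : ℝ → ℝ} (hlm : Tendsto lm (𝓝[>] 0) atTop)
    (h1 : Tendsto (fun ε : ℝ => EP N ε (fun _ => 1) / lm ε) (𝓝[>] 0) (𝓝 1))
    {A κ : Type*} [DecidableEq A] (S : Finset A) (K : Finset κ) (u : A → P → ℂ) (G : κ → P → ℂ)
    {bu : ℝ} {bG : κ → ℝ} (hbu : ∀ a p, ‖u a p‖ ≤ bu) (hbG : ∀ k p, ‖G k p‖ ≤ bG k)
    (hgram : ∀ a ∈ S, ∀ b ∈ S, ∃ C : ℝ, ∀ᶠ ε : ℝ in 𝓝[>] 0,
      (EP N ε fun p => (u a p * conj (u b p)).re) ≤ (if a = b then 1 else 0) * lm ε + C)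
    (h : κ → κ → ℝ) (hherm : ∀ k ∈ K, ∀ l ∈ K, Tendsto (fun ε : ℝ =>
      (EP N ε fun p => (G k p * conj (G l p)).re) / lm ε) (𝓝[>] 0) (𝓝 (h k l)))
    (x : A → κ → ℝ → ℝ) (hx : ∀ a ∈ S, ∀ k ∈ K, Tendsto (fun ε : ℝ =>
      (EP N ε fun p => (G k p * u a p).re) / lm ε - x a k ε) (𝓝[>] 0) (𝓝 0))
    (C : ℝ) {η : ℝ} (hη : 0 < η) :
    ∀ᶠ ε : ℝ in 𝓝[>] 0, ∀ c : κ → ℝ, (∀ k ∈ K, |c k| ≤ C) →
      ∑ a ∈ S, (max (∑ k ∈ K, c k * x a k ε) 0) ^ 2 ≤
        ∑ k ∈ K, ∑ l ∈ K, (c k * c l) * h k l + η := by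
  classical
  have hbu0 : 0 ≤ |bu| := abs_nonneg _
  -- constants
  set Y : ℝ := ∑ k ∈ K, |C| * (2 * (|bG k| * |bu|) + 1) with hY
  have hY0 : 0 ≤ Y := Finset.sum_nonneg fun k _ => by positivity
  choose! Cg hCg using hgram
  -- the error terms
  set δ : ℝ := η / (1 + (K.card : ℝ) ^ 2 * C ^ 2 + 2 * (K.card : ℝ) * S.card * |C| * Y +
    (S.card : ℝ) ^ 2 * Y ^ 2) with hδ
  have hden : 0 < 1 + (K.card : ℝ) ^ 2 * C ^ 2 + 2 * (K.card : ℝ) * S.card * |C| * Y +
    (S.card : ℝ) ^ 2 * Y ^ 2 := by positivity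
  have hδ0 : 0 < δ := div_pos hη hden
  have ev1 : ∀ᶠ ε : ℝ in 𝓝[>] 0, ∀ k ∈ K, ∀ l ∈ K,
      |(EP N ε fun p => (G k p * conj (G l p)).re) / lm ε - h k l| ≤ δ := by
    rw [Filter.eventually_all_finset]
    intro k hk
    rw [Filter.eventually_all_finset]
    intro l hl
    have h2 := (hherm k hk l hl).sub_const (h k l)
    rw [sub_self] at h2
    have h3 := h2.abs
    rw [abs_zero] at h3
    filter_upwards [h3.eventually_lt_const hδ0] with ε hε using hε.le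
  have ev2 : ∀ᶠ ε : ℝ in 𝓝[>] 0, ∀ a ∈ S, ∀ k ∈ K,
      |(EP N ε fun p => (G k p * u a p).re) / lm ε - x a k ε| ≤ min δ 1 := by
    rw [Filter.eventually_all_finset]
    intro a ha
    rw [Filter.eventually_all_finset]
    intro k hk
    have h3 := (hx a ha k hk).abs
    rw [abs_zero] at h3
    filter_upwards [h3.eventually_lt_const (lt_min hδ0 one_pos)] with ε hε using hε.le
  have ev3 : ∀ᶠ ε : ℝ in 𝓝[>] 0, ∀ a ∈ S, ∀ b ∈ S,
      (EP N ε fun p => (u a p * conj (u b p)).re) / lm ε ≤ (if a = b then 1 else 0) + δ := by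
    rw [Filter.eventually_all_finset]
    intro a ha
    rw [Filter.eventually_all_finset]
    intro b hb
    have h3 := hlm.eventually_ge_atTop (|Cg a b| / δ)
    filter_upwards [hCg a ha b hb, h3, hlm.eventually_gt_atTop 0] with ε h4 h5 h6
    rw [div_le_iff₀ h6]
    have h7 : |Cg a b| ≤ δ * lm ε := by
      rw [div_le_iff₀ hδ0] at h5
      linarith
    have h8 := le_abs_self (Cg a b)
    linarith
  filter_upwards [ev1, ev2, ev3, hlm.eventually_gt_atTop 0, h1.eventually_lt_const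
    (by norm_num : (1 : ℝ) < 2), self_mem_nhdsWithin] with ε e1 e2 e3 e4 e5 e6 c hc
  have hε : (0 : ℝ) < ε := e6
  set y : A → ℝ := fun a => ∑ k ∈ K, c k * x a k ε with hy
  set w : A → ℝ := fun a => max (y a) 0 with hw
  have hw0 : ∀ a, 0 ≤ w a := fun a => le_max_right _ _
  have hwy : ∀ a, w a * y a = w a ^ 2 := by
    intro a
    rw [hw]
    simp only
    rcases le_total (y a) 0 with h2 | h2
    · rw [max_eq_right h2]; ring
    · rw [max_eq_left h2]; ring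
  -- the sizes are bounded
  have hxb : ∀ a ∈ S, ∀ k ∈ K, |x a k ε| ≤ 2 * (|bG k| * |bu|) + 1 := by
    intro a ha k hk
    have h2 := e2 a ha k hk
    have h3 : |EP N ε fun p => (G k p * u a p).re| ≤ (|bG k| * |bu|) * EP N ε fun _ => 1 := by
      refine abs_EP_le hN hε fun p => (Complex.abs_re_le_norm _).trans ?_
      rw [norm_mul]
      exact mul_le_mul ((hbG k p).trans (le_abs_self _)) ((hbu a p).trans (le_abs_self _))
        (norm_nonneg _) (abs_nonneg _)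
    have h4 : |(EP N ε fun p => (G k p * u a p).re) / lm ε| ≤ 2 * (|bG k| * |bu|) := by
      rw [abs_div, abs_of_pos e4, div_le_iff₀ e4]
      rw [div_lt_iff₀ e4] at e5
      have h5 : 0 ≤ |bG k| * |bu| := by positivity
      nlinarith
    have h5 : |x a k ε| ≤ |(EP N ε fun p => (G k p * u a p).re) / lm ε| +
        |(EP N ε fun p => (G k p * u a p).re) / lm ε - x a k ε| := by
      have := abs_sub_abs_le_abs_sub (x a k ε) ((EP N ε fun p => (G k p * u a p).re) / lm ε)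
      rw [abs_sub_comm (x a k ε)] at this
      linarith
    have h6 := min_le_right δ 1
    linarith
  have hC' : ∀ k ∈ K, |c k| ≤ |C| := fun k hk => (hc k hk).trans (le_abs_self _)
  have hwY : ∀ a ∈ S, w a ≤ Y := by
    intro a ha
    refine max_le ?_ hY0
    refine (le_abs_self _).trans ((Finset.abs_sum_le_sum_abs _ _).trans ?_)
    refine Finset.sum_le_sum fun k hk => ?_
    rw [abs_mul]
    exact mul_le_mul (hC' k hk) (hxb a ha k hk) (abs_nonneg _) (abs_nonneg _)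
  -- the pointwise inequality
  have hpt : ∀ p, 2 * (∑ k ∈ K, ∑ a ∈ S, (c k * w a) * (G k p * u a p).re) ≤
      (∑ k ∈ K, ∑ l ∈ K, (c k * c l) * (G k p * conj (G l p)).re) +
        ∑ a ∈ S, ∑ b ∈ S, (w a * w b) * (u a p * conj (u b p)).re := by
    intro p
    rw [← norm_sum_sq, ← norm_sum_sq, ← re_sum_mul]
    set X := ∑ k ∈ K, (c k : ℂ) * G k p
    set Z := ∑ a ∈ S, (w a : ℂ) * u a p
    have h2 : (X * Z).re ≤ ‖X‖ * ‖Z‖ := (Complex.re_le_norm _).trans (le_of_eq (norm_mul _ _))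
    nlinarith [sq_nonneg (‖X‖ - ‖Z‖)]
  -- the sums
  have hb1 : ∀ k ∈ K, ∀ a ∈ S, ∀ p, |(G k p * u a p).re| ≤ |bG k| * |bu| := fun k _ a _ p => by
    refine (Complex.abs_re_le_norm _).trans ?_
    rw [norm_mul]
    exact mul_le_mul ((hbG k p).trans (le_abs_self _)) ((hbu a p).trans (le_abs_self _))
      (norm_nonneg _) (abs_nonneg _)
  have hb2 : ∀ k ∈ K, ∀ l ∈ K, ∀ p, |(G k p * conj (G l p)).re| ≤ |bG k| * |bG l| :=
    fun k _ l _ p => by
    refine (Complex.abs_re_le_norm _).trans ?_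
    rw [norm_mul, Complex.norm_conj]
    exact mul_le_mul ((hbG k p).trans (le_abs_self _)) ((hbG l p).trans (le_abs_self _))
      (norm_nonneg _) (abs_nonneg _)
  have hb3 : ∀ a ∈ S, ∀ b ∈ S, ∀ p, |(u a p * conj (u b p)).re| ≤ |bu| * |bu| :=
    fun a _ b _ p => by
    refine (Complex.abs_re_le_norm _).trans ?_
    rw [norm_mul, Complex.norm_conj]
    exact mul_le_mul ((hbu a p).trans (le_abs_self _)) ((hbu b p).trans (le_abs_self _))
      (norm_nonneg _) (abs_nonneg _)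
  have f1 := EP_sum2 hN hε K S (fun k a => c k * w a) (fun k a p => (G k p * u a p).re)
    (fun k _ => |bG k| * |bu|) hb1
  have f2 := EP_sum2 hN hε K K (fun k l => c k * c l) (fun k l p => (G k p * conj (G l p)).re)
    (fun k l => |bG k| * |bG l|) hb2
  have f3 := EP_sum2 hN hε S S (fun a b => w a * w b) (fun a b p => (u a p * conj (u b p)).re)
    (fun _ _ => |bu| * |bu|) hb3
  have g1 : ∀ p, |∑ k ∈ K, ∑ a ∈ S, (c k * w a) * (G k p * u a p).re| ≤
      ∑ k ∈ K, ∑ a ∈ S, |c k * w a| * (|bG k| * |bu|) := fun p =>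
    (Finset.abs_sum_le_sum_abs _ _).trans (Finset.sum_le_sum fun k hk =>
      (Finset.abs_sum_le_sum_abs _ _).trans (Finset.sum_le_sum fun a ha => by
        rw [abs_mul]
        exact mul_le_mul_of_nonneg_left (hb1 k hk a ha p) (abs_nonneg _)))
  have g2 : ∀ p, |∑ k ∈ K, ∑ l ∈ K, (c k * c l) * (G k p * conj (G l p)).re| ≤
      ∑ k ∈ K, ∑ l ∈ K, |c k * c l| * (|bG k| * |bG l|) := fun p =>
    (Finset.abs_sum_le_sum_abs _ _).trans (Finset.sum_le_sum fun k hk =>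
      (Finset.abs_sum_le_sum_abs _ _).trans (Finset.sum_le_sum fun l hl => by
        rw [abs_mul]
        exact mul_le_mul_of_nonneg_left (hb2 k hk l hl p) (abs_nonneg _)))
  have g3 : ∀ p, |∑ a ∈ S, ∑ b ∈ S, (w a * w b) * (u a p * conj (u b p)).re| ≤
      ∑ a ∈ S, ∑ b ∈ S, |w a * w b| * (|bu| * |bu|) := fun p =>
    (Finset.abs_sum_le_sum_abs _ _).trans (Finset.sum_le_sum fun a ha =>
      (Finset.abs_sum_le_sum_abs _ _).trans (Finset.sum_le_sum fun b hb => by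
        rw [abs_mul]
        exact mul_le_mul_of_nonneg_left (hb3 a ha b hb p) (abs_nonneg _)))
  have h2 := EP_mono' hN hε (φ := fun p => 2 * (∑ k ∈ K, ∑ a ∈ S, (c k * w a) * (G k p * u a p).re))
    (ψ := fun p => (∑ k ∈ K, ∑ l ∈ K, (c k * c l) * (G k p * conj (G l p)).re) +
        ∑ a ∈ S, ∑ b ∈ S, (w a * w b) * (u a p * conj (u b p)).re)
    (B := 2 * ∑ k ∈ K, ∑ a ∈ S, |c k * w a| * (|bG k| * |bu|))
    (B' := (∑ k ∈ K, ∑ l ∈ K, |c k * c l| * (|bG k| * |bG l|)) +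
      ∑ a ∈ S, ∑ b ∈ S, |w a * w b| * (|bu| * |bu|))
    (fun p => by
      rw [abs_mul, abs_of_pos (by norm_num : (0 : ℝ) < 2)]
      exact mul_le_mul_of_nonneg_left (g1 p) (by norm_num))
    (fun p => (abs_add_le _ _).trans (add_le_add (g2 p) (g3 p))) hpt
  rw [EP_const_mul, EP_add hN hε g2 g3, f1, f2, f3] at h2
  -- division by `lm`
  have h3 : 2 * (∑ k ∈ K, ∑ a ∈ S, (c k * w a) * ((EP N ε fun p => (G k p * u a p).re) / lm ε)) ≤
      (∑ k ∈ K, ∑ l ∈ K, (c k * c l) * ((EP N ε fun p => (G k p * conj (G l p)).re) / lm ε)) +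
        ∑ a ∈ S, ∑ b ∈ S, (w a * w b) * ((EP N ε fun p => (u a p * conj (u b p)).re) / lm ε) := by
    rw [sum_div2 K S (fun k a => c k * w a) (fun k a => EP N ε fun p => (G k p * u a p).re),
      sum_div2 K K (fun k l => c k * c l) (fun k l => EP N ε fun p => (G k p * conj (G l p)).re),
      sum_div2 S S (fun a b => w a * w b) (fun a b => EP N ε fun p => (u a p * conj (u b p)).re),
      ← mul_div_assoc, ← add_div]
    exact div_le_div_of_nonneg_right h2 e4.le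
  -- the three comparisons
  have k1 : ∑ a ∈ S, w a ^ 2 - (K.card : ℝ) * S.card * (|C| * Y * δ) ≤
      ∑ k ∈ K, ∑ a ∈ S, (c k * w a) * ((EP N ε fun p => (G k p * u a p).re) / lm ε) := by
    have q1 : ∑ a ∈ S, w a ^ 2 = ∑ k ∈ K, ∑ a ∈ S, (c k * w a) * x a k ε := by
      rw [Finset.sum_comm]
      refine Finset.sum_congr rfl fun a _ => ?_
      rw [← hwy a, hy]
      simp only
      rw [Finset.mul_sum]
      exact Finset.sum_congr rfl fun k _ => by ring
    have q2 : ∑ k ∈ K, ∑ _a ∈ S, (|C| * Y * δ) = (K.card : ℝ) * S.card * (|C| * Y * δ) := by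
      rw [Finset.sum_const, Finset.sum_const, nsmul_eq_mul, nsmul_eq_mul]
      ring
    rw [q1, ← q2, ← Finset.sum_sub_distrib]
    refine Finset.sum_le_sum fun k hk => ?_
    rw [← Finset.sum_sub_distrib]
    refine Finset.sum_le_sum fun a ha => ?_
    have q3 := e2 a ha k hk
    have q4 : |c k * w a| ≤ |C| * Y := by
      rw [abs_mul, abs_of_nonneg (hw0 a)]
      exact mul_le_mul (hC' k hk) (hwY a ha) (hw0 a) (abs_nonneg _)
    have q5 : |(c k * w a) * ((EP N ε fun p => (G k p * u a p).re) / lm ε - x a k ε)| ≤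
        |C| * Y * δ := by
      rw [abs_mul]
      exact mul_le_mul q4 (q3.trans (min_le_left _ _)) (abs_nonneg _) (by positivity)
    have q6 := (abs_le.1 q5).1
    have q7 : (c k * w a) * ((EP N ε fun p => (G k p * u a p).re) / lm ε - x a k ε) =
      (c k * w a) * ((EP N ε fun p => (G k p * u a p).re) / lm ε) - (c k * w a) * x a k ε := by ring
    linarith
  have k2 : ∑ k ∈ K, ∑ l ∈ K, (c k * c l) * ((EP N ε fun p => (G k p * conj (G l p)).re) / lm ε) ≤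
      ∑ k ∈ K, ∑ l ∈ K, (c k * c l) * h k l + (K.card : ℝ) ^ 2 * (C ^ 2 * δ) := by
    have q2 : ∑ k ∈ K, ∑ _l ∈ K, (C ^ 2 * δ) = (K.card : ℝ) ^ 2 * (C ^ 2 * δ) := by
      rw [Finset.sum_const, Finset.sum_const, nsmul_eq_mul, nsmul_eq_mul]
      ring
    rw [← q2, ← Finset.sum_add_distrib]
    refine Finset.sum_le_sum fun k hk => ?_
    rw [← Finset.sum_add_distrib]
    refine Finset.sum_le_sum fun l hl => ?_
    have q3 := e1 k hk l hl
    have q4 : |c k * c l| ≤ C ^ 2 := by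
      rw [abs_mul, ← sq_abs C, sq]
      exact mul_le_mul (hC' k hk) (hC' l hl) (abs_nonneg _) (abs_nonneg _)
    have q5 : |(c k * c l) * ((EP N ε fun p => (G k p * conj (G l p)).re) / lm ε - h k l)| ≤
        C ^ 2 * δ := by
      rw [abs_mul]
      exact mul_le_mul q4 q3 (abs_nonneg _) (by positivity)
    have q6 := (abs_le.1 q5).2
    have q7 : (c k * c l) * ((EP N ε fun p => (G k p * conj (G l p)).re) / lm ε - h k l) =
      (c k * c l) * ((EP N ε fun p => (G k p * conj (G l p)).re) / lm ε) -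
        (c k * c l) * h k l := by ring
    linarith
  have k3 : ∑ a ∈ S, ∑ b ∈ S, (w a * w b) *
      ((EP N ε fun p => (u a p * conj (u b p)).re) / lm ε) ≤
      ∑ a ∈ S, w a ^ 2 + (S.card : ℝ) ^ 2 * (Y ^ 2 * δ) := by
    have q2 : ∑ a ∈ S, ∑ _b ∈ S, (Y ^ 2 * δ) = (S.card : ℝ) ^ 2 * (Y ^ 2 * δ) := by
      rw [Finset.sum_const, Finset.sum_const, nsmul_eq_mul, nsmul_eq_mul]
      ring
    have q1 : ∑ a ∈ S, w a ^ 2 = ∑ a ∈ S, ∑ b ∈ S, (w a * w b) * (if a = b then 1 else 0) := by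
      refine Finset.sum_congr rfl fun a ha => ?_
      simp [ha, sq]
    rw [q1, ← q2, ← Finset.sum_add_distrib]
    refine Finset.sum_le_sum fun a ha => ?_
    rw [← Finset.sum_add_distrib]
    refine Finset.sum_le_sum fun b hb => ?_
    have q3 := e3 a ha b hb
    have q4 : w a * w b ≤ Y ^ 2 := by
      rw [sq]
      exact mul_le_mul (hwY a ha) (hwY b hb) (hw0 b) hY0
    have q5 : 0 ≤ w a * w b := mul_nonneg (hw0 a) (hw0 b)
    have q6 := mul_le_mul_of_nonneg_left q3 q5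
    have q7 : w a * w b * δ ≤ Y ^ 2 * δ := mul_le_mul_of_nonneg_right q4 hδ0.le
    have q8 : (w a * w b) * ((if a = b then 1 else 0) + δ) =
      (w a * w b) * (if a = b then 1 else 0) + w a * w b * δ := by ring
    linarith
  have k4 : δ * (1 + (K.card : ℝ) ^ 2 * C ^ 2 + 2 * (K.card : ℝ) * S.card * |C| * Y +
    (S.card : ℝ) ^ 2 * Y ^ 2) = η := by
    rw [hδ]
    field_simp
  have k5 : (K.card : ℝ) ^ 2 * (C ^ 2 * δ) + 2 * ((K.card : ℝ) * S.card * (|C| * Y * δ)) +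
      (S.card : ℝ) ^ 2 * (Y ^ 2 * δ) ≤ η := by
    rw [← k4]
    nlinarith
  have k6 : ∑ a ∈ S, (max (∑ k ∈ K, c k * x a k ε) 0) ^ 2 = ∑ a ∈ S, w a ^ 2 := rfl
  rw [k6]
  linarith

end

end Pool.Agent.Y149.CR
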