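import Pool.Agent.Y149.CR.Unf

/-! The Rankin-Selberg integral on the line `Re s = 1`, away from the real point: positive and negative
parts differ by a bounded amount. -/

set_option autoImplicit false

namespace Pool.Agent.Y149.CR

open MeasureTheory Filter Topology UpperHalfPlane
open scoped ENNReal MatrixGroups Modular
open Pool.Agent.W165.RS (qf EE RR Inv Dec GG GG_dec im_fd measurableSet_fd volume_fd_ne_top
  measurable_GG phi SS measurable_phi)
open Pool.Agent.Y722.RS (phi_zero phi_le_one)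

noncomputable section

variable {N : ℕ} [NeZero N]

/-- the positive part of `Re (ζ x^s)` -/
def up (ζ s : ℂ) (x : ℝ) : ℝ≥0∞ := ENNReal.ofReal (ζ * (x : ℂ) ^ s).re

theorem measurable_up (ζ s : ℂ) : Measurable (up ζ s) := by
  unfold up
  exact ENNReal.measurable_ofReal.comp (Complex.measurable_re.comp
    (measurable_const.mul (Complex.measurable_ofReal.pow_const s)))

theorem up_ne_top (ζ s : ℂ) (x : ℝ) : up ζ s x ≠ ∞ := ENNReal.ofReal_ne_top

theorem pos_neg {ι : Type*} {r : ι → ℝ} (h : Summable r) (h' : Summable fun i => |r i|) :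
    ∑' i, ENNReal.ofReal (r i) ≤ ∑' i, ENNReal.ofReal (-r i) + ENNReal.ofReal (∑' i, r i) := by
  have h1 : Summable fun i => max (r i) 0 := Summable.of_nonneg_of_le (fun i => le_max_right _ _)
    (fun i => max_le (le_abs_self _) (abs_nonneg _)) h'
  have h2 : Summable fun i => max (-r i) 0 := Summable.of_nonneg_of_le (fun i => le_max_right _ _)
    (fun i => max_le (neg_le_abs _) (abs_nonneg _)) h'
  have e : ∀ x : ℝ, ENNReal.ofReal x = ENNReal.ofReal (max x 0) := fun x => by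
    rcases le_total x 0 with hx | hx
    · rw [max_eq_right hx, ENNReal.ofReal_of_nonpos hx, ENNReal.ofReal_zero]
    · rw [max_eq_left hx]
  have e1 : ∑' i, ENNReal.ofReal (r i) = ENNReal.ofReal (∑' i, max (r i) 0) := by
    rw [ENNReal.ofReal_tsum_of_nonneg (fun i => le_max_right _ _) h1]
    exact tsum_congr fun i => e _
  have e2 : ∑' i, ENNReal.ofReal (-r i) = ENNReal.ofReal (∑' i, max (-r i) 0) := by
    rw [ENNReal.ofReal_tsum_of_nonneg (fun i => le_max_right _ _) h2]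
    exact tsum_congr fun i => e _
  have e3 : ∑' i, max (r i) 0 = ∑' i, max (-r i) 0 + ∑' i, r i := by
    rw [← h2.tsum_add h]
    refine tsum_congr fun i => ?_
    rcases le_total (r i) 0 with hx | hx
    · rw [max_eq_right hx, max_eq_left (by linarith)]; ring
    · rw [max_eq_left hx, max_eq_right (by linarith)]; ring
  rw [e1, e2, e3]
  exact ENNReal.ofReal_add_le

theorem Lw_eq (a b : ZMod N) (z : ℍ) (ζ s : ℂ) :
    Lw a b z (up ζ s) = ∑' p : ℤ × ℤ, ENNReal.ofReal (ζ * zc a b z s p).re := by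
  unfold Lw up zc
  refine tsum_congr fun p => ?_
  split_ifs with h
  · rfl
  · rw [mul_zero, Complex.zero_re, ENNReal.ofReal_zero]

/-- **Comparison of the lattice sums.** -/
theorem Lw_le {τ : ℝ} (hτ : τ ≠ 0) : ∃ C : ℝ, 0 ≤ C ∧ ∀ᶠ σ : ℝ in 𝓝[>] 1,
    ∀ (ζ : ℂ), ‖ζ‖ ≤ 1 → ∀ (a b : ZMod N) (z : ℍ), 1 / 2 ≤ z.im →
      Lw a b z (up ζ (σ + τ * Complex.I)) ≤ Lw a b z (up (-ζ) (σ + τ * Complex.I)) +
        ENNReal.ofReal C * ENNReal.ofReal (z.im ^ 2) := by
  obtain ⟨C, hC, hev⟩ := lat_bdd (N := N) hτ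
  refine ⟨C, hC, ?_⟩
  have h12 : ∀ᶠ s : ℝ in 𝓝[>] 1, 1 < s ∧ s ≤ 2 := by
    filter_upwards [Ioc_mem_nhdsGT (show (1:ℝ) < 2 by norm_num)] with s hs
    exact hs
  filter_upwards [hev, h12] with σ h1 h2 ζ hζ a b z hz
  set s : ℂ := σ + τ * Complex.I with hs
  have hre : s.re = σ := by rw [hs]; simp
  have hsum := summable_zc a b z (s := s) (by rw [hre]; exact h2.1) (by rw [hre]; exact h2.2)
  have h3 : Summable fun p => ζ * zc a b z s p := hsum.of_norm.mul_left ζ
  have h4 : Summable fun p => (ζ * zc a b z s p).re := Complex.hasSum_re h3.hasSum |>.summable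
  have h5 : Summable fun p => |(ζ * zc a b z s p).re| := by
    refine Summable.of_nonneg_of_le (fun p => abs_nonneg _) (fun p => ?_) (hsum.mul_left ‖ζ‖)
    exact (Complex.abs_re_le_norm _).trans (le_of_eq (norm_mul _ _))
  have h6 := pos_neg h4 h5
  rw [Lw_eq, Lw_eq, ← ENNReal.ofReal_mul hC]
  refine h6.trans ?_
  have e : ∀ p, -(ζ * zc a b z s p).re = (-ζ * zc a b z s p).re := fun p => by
    rw [neg_mul, Complex.neg_re]
  simp_rw [e]
  refine add_le_add_right ?_ _
  refine ENNReal.ofReal_le_ofReal ?_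
  rw [← Complex.re_tsum h3, tsum_mul_left]
  refine (Complex.re_le_norm _).trans ?_
  rw [norm_mul]
  calc ‖ζ‖ * ‖∑' p, zc a b z s p‖ ≤ 1 * (C * z.im ^ 2) :=
        mul_le_mul hζ (h1 a b z hz) (norm_nonneg _) zero_le_one
    _ = _ := one_mul _

/-- **Comparison of the integrals.** -/
theorem comp_bdd {F : ℍ → ℝ≥0∞} (hm : Measurable F) (hF : Inv N F) (hD : Dec F) {τ : ℝ}
    (hτ : τ ≠ 0) :
    ∃ C : ℝ≥0∞, C ≠ ∞ ∧ ∀ᶠ σ : ℝ in 𝓝[>] 1, ∀ ζ : ℂ, ‖ζ‖ ≤ 1 →
      (∑' e : EE N, ∫⁻ z in SS, F z * up ζ (σ + τ * Complex.I) (z.im / (e.1 : ℝ) ^ 2)) ≤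
      (∑' e : EE N, ∫⁻ z in SS, F z * up (-ζ) (σ + τ * Complex.I) (z.im / (e.1 : ℝ) ^ 2)) + C := by
  obtain ⟨C, hC, hev⟩ := Lw_le (N := N) hτ
  obtain ⟨K, hK, hKb⟩ := GG_dec (N := N) hD
  set B : ℝ≥0∞ := ∑ _ab : ZMod N × ZMod N, ENNReal.ofReal C * K with hB
  have hBtop : B ≠ ∞ := ENNReal.sum_ne_top.2 fun _ _ => ENNReal.mul_ne_top ENNReal.ofReal_ne_top hK
  have hBint : ∫⁻ z : ℍ, (Set.indicator 𝒟 (fun _ => B) z : ℝ≥0∞) ≠ ∞ := by
    rw [lintegral_indicator measurableSet_fd, setLIntegral_const]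
    exact ENNReal.mul_ne_top hBtop volume_fd_ne_top
  have hBm : Measurable (Set.indicator (𝒟 : Set ℍ) (fun _ => B)) :=
    measurable_const.indicator measurableSet_fd
  refine ⟨_, hBint, ?_⟩
  filter_upwards [hev] with σ hs ζ hζ
  rw [unfold_gen hm hF (measurable_up _ _), unfold_gen hm hF (measurable_up _ _),
    ← lintegral_add_right _ hBm]
  refine lintegral_mono fun z => ?_
  by_cases hz : z ∈ (𝒟 : Set ℍ)
  · have hv := im_fd hz
    calc phi z * ∑ ab : ZMod N × ZMod N, GG F ab z * Lw ab.1 ab.2 z (up ζ (σ + τ * Complex.I))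
        ≤ phi z * ∑ ab : ZMod N × ZMod N, GG F ab z *
          (Lw ab.1 ab.2 z (up (-ζ) (σ + τ * Complex.I)) +
            ENNReal.ofReal C * ENNReal.ofReal (z.im ^ 2)) := by
          gcongr with ab
          exact hs ζ hζ ab.1 ab.2 z hv
      _ = phi z * ∑ ab : ZMod N × ZMod N, GG F ab z * Lw ab.1 ab.2 z (up (-ζ) (σ + τ * Complex.I)) +
          phi z * ∑ ab : ZMod N × ZMod N,
            (ENNReal.ofReal C * (GG F ab z * ENNReal.ofReal (z.im ^ 2))) := by
          rw [← mul_add, ← Finset.sum_add_distrib]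
          congr 1
          refine Finset.sum_congr rfl fun ab _ => ?_
          ring
      _ ≤ _ := by
          refine add_le_add_right ?_ _
          rw [Set.indicator_of_mem hz]
          calc phi z * ∑ ab : ZMod N × ZMod N, (ENNReal.ofReal C * (GG F ab z *
              ENNReal.ofReal (z.im ^ 2))) ≤ 1 * ∑ ab : ZMod N × ZMod N, ENNReal.ofReal C * K := by
                refine mul_le_mul' (phi_le_one z) (Finset.sum_le_sum fun ab _ => ?_)
                exact mul_le_mul_right (hKb ab z hv) _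
            _ = B := by rw [one_mul]
  · simp only [phi_zero hz, zero_mul]
    exact zero_le

end

end Pool.Agent.Y149.CR
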