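import Pool.Agent.Y149.CR.Strip

/-! The Dirichlet series `∑ |a_n|² n^{-1-s}` is bounded near `1 + iτ`, `τ ≠ 0`. -/

set_option autoImplicit false

namespace Pool.Agent.Y149.CR

open MeasureTheory Filter Topology UpperHalfPlane CongruenceSubgroup
open scoped ENNReal MatrixGroups Modular ModularForm
open Pool.Agent.W165.RS (EE SS FF FF_meas FF_inv FF_dec ac ac_zero)
open Pool.Agent.Y722.RS (S2 Sm)
open Pool.Agent.TH941 (gg gg_nonneg)

noncomputable section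

variable {N : ℕ} [NeZero N]

/-- the archimedean factor -/
def Ga (s : ℂ) : ℂ := (((4 * Real.pi : ℝ)) : ℂ) ^ (-(s + 1)) * Complex.Gamma (s + 1)

omit [NeZero N] in
theorem gg_zero (f : S2 N) : gg f 0 = 0 := by unfold gg; simp

theorem vv_eq (f : S2 N) {s : ℂ} (e n : ℕ) :
    vv f s e n = (e : ℂ) ^ (-(2 * s)) * (Ga s * ((gg f n : ℂ) * (n : ℂ) ^ (-s))) := by
  rcases Nat.eq_zero_or_pos n with hn | hn
  · subst hn
    unfold vv
    rw [ac_zero, gg_zero]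
    simp
  · have hn' : (0 : ℝ) < n := by exact_mod_cast hn
    have hp : (0 : ℝ) < 4 * Real.pi := by positivity
    have e1 : (1 / (4 * Real.pi * n : ℂ)) ^ (s + 1) =
        (((4 * Real.pi : ℝ)) : ℂ) ^ (-(s + 1)) * ((n : ℂ) ^ (-s) * (n : ℂ)⁻¹) := by
      have e2 : (1 / (4 * Real.pi * n : ℂ)) = ((1 / (4 * Real.pi * n) : ℝ) : ℂ) := by push_cast; rfl
      have e3 : (n : ℂ) = ((n : ℝ) : ℂ) := by push_cast; rfl
      rw [e2, div_cpow_real one_pos (by positivity), Complex.ofReal_one, Complex.one_cpow, one_mul,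
        Complex.ofReal_mul (4 * Real.pi), Complex.mul_cpow_ofReal_nonneg hp.le hn'.le, neg_add,
        Complex.cpow_add _ _ (by exact_mod_cast hn'.ne' : ((n : ℝ) : ℂ) ≠ 0), Complex.cpow_neg_one,
        ← e3]
    unfold vv Ga gg
    rw [e1]
    push_cast
    field_simp

theorem norm_ps (f : S2 N) (s : ℂ) {e : ℕ} (he : 0 < e) (n : ℕ) {y : ℝ} (hy : 0 < y) :
    ((‖ps f s e n y‖ : ℝ) : ℂ) = ps f (s.re : ℂ) e n y := by
  have he' : (0 : ℝ) < e := by exact_mod_cast he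
  have hq : 0 < y / (e : ℝ) ^ 2 := by positivity
  unfold ps
  rw [norm_mul, norm_cpow_real hq, Complex.norm_real, Real.norm_of_nonneg (dn_nonneg f n y)]
  push_cast
  rw [Complex.ofReal_cpow hq.le]
  push_cast
  rfl

theorem integral_norm_ps (f : S2 N) {s : ℂ} (hs : 0 < s.re) {e : ℕ} (he : 0 < e) (n : ℕ) :
    ((∫ y in Set.Ioi (0 : ℝ), ‖ps f s e n y‖ : ℝ) : ℂ) = vv f (s.re : ℂ) e n := by
  rw [← (ps_integral f (s := (s.re : ℂ)) (by simpa using hs) he n).2, ← integral_complex_ofReal]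
  exact setIntegral_congr_fun measurableSet_Ioi fun y hy => norm_ps f s he n hy

/-- the Dirichlet series -/
def SC (f : S2 N) (s : ℂ) : ℂ := ∑' n : ℕ, (gg f n : ℂ) * (n : ℂ) ^ (-s)

/-- the sum over the integers prime to the level -/
def LC (N : ℕ) (s : ℂ) : ℂ := ∑' e : EE N, ((e.1 : ℕ) : ℂ) ^ (-(2 * s))

omit [NeZero N] in
theorem norm_term (f : S2 N) {s : ℂ} (hs : 0 < s.re) (n : ℕ) :
    ‖(gg f n : ℂ) * (n : ℂ) ^ (-s)‖ = gg f n * (n : ℝ) ^ (-s.re) := by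
  rw [norm_mul, Complex.norm_real, Real.norm_of_nonneg (gg_nonneg f n)]
  rcases Nat.eq_zero_or_pos n with hn | hn
  · subst hn
    rw [gg_zero]; simp
  · rw [Complex.norm_natCast_cpow_of_pos hn, Complex.neg_re]

theorem norm_e {s : ℂ} (e : EE N) : ‖((e.1 : ℕ) : ℂ) ^ (-(2 * s))‖ = (e.1 : ℝ) ^ (-(2 * s.re)) := by
  rw [Complex.norm_natCast_cpow_of_pos e.2.1]
  simp

theorem summable_e {s : ℂ} (hs : 1 < s.re) :
    Summable fun e : EE N => ‖((e.1 : ℕ) : ℂ) ^ (-(2 * s))‖ :=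
  (Pool.Agent.W165.RS.LN_summable N hs.le).congr fun e => (norm_e e).symm

theorem summable_n {f : S2 N} (hf : Sm f) {s : ℂ} (hs : 1 < s.re) :
    Summable fun n : ℕ => ‖(gg f n : ℂ) * (n : ℂ) ^ (-s)‖ :=
  (hf s.re hs).congr fun n => (norm_term f (by linarith) n).symm

theorem summable_vv {f : S2 N} (hf : Sm f) {s : ℂ} (hs : 1 < s.re) :
    Summable fun x : EE N × ℕ => ‖vv f s x.1.1 x.2‖ := by
  have h1 := Summable.mul_norm (summable_e (N := N) hs) ((summable_n hf hs).mul_left ‖Ga s‖ |>.congr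
    (fun n => (norm_mul (Ga s) _).symm))
  exact h1.congr fun x => by rw [vv_eq]

theorem tsum_vv {f : S2 N} (hf : Sm f) {s : ℂ} (hs : 1 < s.re) :
    ∑' x : EE N × ℕ, vv f s x.1.1 x.2 = LC N s * (Ga s * SC f s) := by
  have h1 := tsum_mul_tsum_of_summable_norm (summable_e (N := N) hs)
    ((summable_n hf hs).mul_left ‖Ga s‖ |>.congr (fun n => (norm_mul (Ga s) _).symm))
  rw [tsum_mul_left] at h1
  unfold LC SC
  rw [h1]
  exact tsum_congr fun x => vv_eq f _ _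

/-- the real part against a complex number -/
theorem norm_le_of_re {X : ℂ} {C : ℝ} (h : ∀ ζ : ℂ, ‖ζ‖ ≤ 1 → (ζ * X).re ≤ C) : ‖X‖ ≤ C := by
  rcases eq_or_ne X 0 with h0 | h0
  · have := h 0 (by simp)
    rw [zero_mul, Complex.zero_re] at this
    rw [h0, norm_zero]
    exact this
  · have hn : 0 < ‖X‖ := norm_pos_iff.2 h0
    have h1 := h ((starRingEnd ℂ) X / (‖X‖ : ℂ)) (by
      rw [norm_div, Complex.norm_conj, Complex.norm_real, norm_norm, div_self hn.ne'])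
    have e : (starRingEnd ℂ) X / (‖X‖ : ℂ) * X = (‖X‖ : ℂ) := by
      have h2 : (starRingEnd ℂ) X * X = ((‖X‖ ^ 2 : ℝ) : ℂ) := by
        rw [mul_comm, Complex.mul_conj, Complex.normSq_eq_norm_sq]
      rw [div_mul_eq_mul_div, h2]
      push_cast
      field_simp
    rw [e, Complex.ofReal_re] at h1
    exact h1

/-- **The completed series is bounded.** -/
theorem X_bdd {f : S2 N} (hf : Sm f) {τ : ℝ} (hτ : τ ≠ 0) : ∃ C : ℝ, ∀ᶠ σ : ℝ in 𝓝[>] 1,
    ‖LC N (σ + τ * Complex.I) * (Ga (σ + τ * Complex.I) * SC f (σ + τ * Complex.I))‖ ≤ C := by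
  obtain ⟨C, hC, hev⟩ := comp_bdd (FF_meas f) (FF_inv f) (FF_dec f) hτ
  refine ⟨C.toReal, ?_⟩
  filter_upwards [hev, self_mem_nhdsWithin] with σ h1 h2
  have hσ : (1 : ℝ) < σ := h2
  set s : ℂ := σ + τ * Complex.I with hs
  have hre : s.re = σ := by rw [hs]; simp
  have hs1 : 1 < s.re := by rw [hre]; exact hσ
  have hs0 : 0 < s.re := by linarith
  rw [← tsum_vv hf hs1]
  refine norm_le_of_re fun ζ hζ => ?_
  have h3 := h1 ζ hζ
  -- the integrals
  have hstrip : ∀ ξ : ℂ, (∑' e : EE N, ∫⁻ z in SS, FF f z * up ξ s (z.im / (e.1 : ℝ) ^ 2)) =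
      ∑' x : EE N × ℕ, ∫⁻ y in Set.Ioi (0 : ℝ), ENNReal.ofReal (ξ * ps f s x.1.1 x.2 y).re := by
    intro ξ
    rw [ENNReal.tsum_prod']
    refine tsum_congr fun e => ?_
    have hm : Measurable fun y : ℝ => up ξ s (y / (e.1 : ℝ) ^ 2) :=
      (measurable_up ξ s).comp (measurable_id.div_const _)
    have h4 := strip_gen f hm (fun y => up_ne_top _ _ _)
    rw [h4]
    refine tsum_congr fun n => ?_
    refine lintegral_congr fun y => ?_
    unfold up
    rw [← ENNReal.ofReal_mul (dn_nonneg f n y)]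
    congr 1
    unfold ps
    rw [← Complex.re_ofReal_mul]
    congr 1
    ring
  rw [hstrip, hstrip] at h3
  -- finiteness
  have hint : ∀ x : EE N × ℕ, IntegrableOn (ps f s x.1.1 x.2) (Set.Ioi 0) := fun x =>
    (ps_integral f hs0 x.1.2.1 x.2).1
  have hb : ∀ (ξ : ℂ), ‖ξ‖ ≤ 1 → ∀ x : EE N × ℕ,
      ∫⁻ y in Set.Ioi (0 : ℝ), ENNReal.ofReal (ξ * ps f s x.1.1 x.2 y).re ≤
        ENNReal.ofReal ‖vv f (s.re : ℂ) x.1.1 x.2‖ := by
    intro ξ hξ x
    have h4 : ∫⁻ y in Set.Ioi (0 : ℝ), ENNReal.ofReal (ξ * ps f s x.1.1 x.2 y).re ≤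
        ∫⁻ y in Set.Ioi (0 : ℝ), ENNReal.ofReal ‖ps f s x.1.1 x.2 y‖ := by
      refine lintegral_mono fun y => ENNReal.ofReal_le_ofReal ?_
      refine (Complex.re_le_norm _).trans ?_
      rw [norm_mul]
      exact mul_le_of_le_one_left (norm_nonneg _) hξ
    refine h4.trans (le_of_eq ?_)
    rw [← ofReal_integral_eq_lintegral_ofReal (hint x).norm (Eventually.of_forall fun y =>
      norm_nonneg _)]
    have h5 := integral_norm_ps f hs0 x.1.2.1 x.2
    rw [← h5, Complex.norm_real, Real.norm_of_nonneg (integral_nonneg fun y => norm_nonneg _)]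
  have hfin : ∀ (ξ : ℂ), ‖ξ‖ ≤ 1 → (∑' x : EE N × ℕ, ∫⁻ y in Set.Ioi (0 : ℝ),
      ENNReal.ofReal (ξ * ps f s x.1.1 x.2 y).re) ≠ ∞ := by
    intro ξ hξ
    refine ne_top_of_le_ne_top ?_ (ENNReal.tsum_le_tsum (hb ξ hξ))
    exact (summable_vv hf (s := (s.re : ℂ)) (by simpa using hs1)).tsum_ofReal_ne_top
  have hζ' : ‖-ζ‖ ≤ 1 := by rwa [norm_neg]
  have hval : ∀ x : EE N × ℕ, (ζ * vv f s x.1.1 x.2).re =
      (∫⁻ y in Set.Ioi (0 : ℝ), ENNReal.ofReal (ζ * ps f s x.1.1 x.2 y).re).toReal -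
      (∫⁻ y in Set.Ioi (0 : ℝ), ENNReal.ofReal (-ζ * ps f s x.1.1 x.2 y).re).toReal := by
    intro x
    have hi1 : IntegrableOn (fun y => ζ * ps f s x.1.1 x.2 y) (Set.Ioi 0) := (hint x).const_mul ζ
    have hi2 : IntegrableOn (fun y => (ζ * ps f s x.1.1 x.2 y).re) (Set.Ioi 0) := hi1.re
    have h4 := integral_eq_lintegral_pos_part_sub_lintegral_neg_part hi2
    have e : ∀ y, -(ζ * ps f s x.1.1 x.2 y).re = (-ζ * ps f s x.1.1 x.2 y).re := fun y => by
      rw [neg_mul, Complex.neg_re]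
    simp_rw [e] at h4
    rw [← h4, ← (ps_integral f hs0 x.1.2.1 x.2).2, ← integral_const_mul]
    exact (integral_re hi1).symm
  have hX : Summable fun x : EE N × ℕ => ζ * vv f s x.1.1 x.2 := (summable_vv hf hs1).of_norm.mul_left ζ
  rw [← tsum_mul_left, Complex.re_tsum hX, tsum_congr hval, (ENNReal.summable_toReal
    (hfin ζ hζ)).tsum_sub (ENNReal.summable_toReal (hfin (-ζ) hζ')), ← ENNReal.tsum_toReal_eq
    (fun x => ENNReal.ne_top_of_tsum_ne_top (hfin ζ hζ) x), ← ENNReal.tsum_toReal_eq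
    (fun x => ENNReal.ne_top_of_tsum_ne_top (hfin (-ζ) hζ') x)]
  have h6 := ENNReal.toReal_mono (ENNReal.add_ne_top.2 ⟨hfin (-ζ) hζ', hC⟩) h3
  rw [ENNReal.toReal_add (hfin (-ζ) hζ') hC] at h6
  linarith

end

end Pool.Agent.Y149.CR
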