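import Pool.Agent.W165.RS.EM

/-! Euler-Maclaurin of order zero for complex functions; the one-dimensional sums at complex
exponents. -/

set_option autoImplicit false

namespace Pool.Agent.Y149.CR

open MeasureTheory Filter Topology
open Pool.Agent.W165.RS (gs gs_le gs_nonneg)

noncomputable section

theorem EM {f f' : ℝ → ℂ} (hf : ∀ x, HasDerivAt f (f' x) x) (hi : Integrable f)
    (hi' : Integrable f') :
    Summable (fun j : ℤ => f j) ∧ ‖∑' j : ℤ, f j - ∫ x, f x‖ ≤ ∫ x, ‖f' x‖ := by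
  have hcf : Continuous f := continuous_iff_continuousAt.2 fun x => (hf x).continuousAt
  have h1 := hi.hasSum_intervalIntegral 0
  have h2 := hi'.norm.hasSum_intervalIntegral 0
  simp only [zero_add] at h1 h2
  have key : ∀ j : ℤ, ‖f j - ∫ x in (j:ℝ)..(j:ℝ) + 1, f x‖ ≤ ∫ x in (j:ℝ)..(j:ℝ) + 1, ‖f' x‖ := by
    intro j
    have e1 : f j - ∫ x in (j:ℝ)..(j:ℝ) + 1, f x = ∫ x in (j:ℝ)..(j:ℝ) + 1, (f j - f x) := by
      rw [intervalIntegral.integral_sub (by simp) hi.intervalIntegrable]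
      simp
    rw [e1]
    have hb : ∀ x ∈ Set.Icc (j:ℝ) ((j:ℝ) + 1), ‖f j - f x‖ ≤ ∫ x in (j:ℝ)..(j:ℝ) + 1, ‖f' x‖ := by
      intro x hx
      have e2 : ∫ y in (j:ℝ)..x, f' y = f x - f j :=
        intervalIntegral.integral_eq_sub_of_hasDerivAt (fun y _ => hf y) hi'.intervalIntegrable
      rw [norm_sub_rev, ← e2]
      calc ‖∫ y in (j:ℝ)..x, f' y‖ ≤ ∫ y in (j:ℝ)..x, ‖f' y‖ :=
            intervalIntegral.norm_integral_le_integral_norm hx.1
        _ ≤ ∫ y in (j:ℝ)..(j:ℝ) + 1, ‖f' y‖ := by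
            apply intervalIntegral.integral_mono_interval le_rfl hx.1 hx.2
            · exact Eventually.of_forall fun y => norm_nonneg _
            · exact hi'.norm.intervalIntegrable
    calc ‖∫ x in (j:ℝ)..(j:ℝ) + 1, (f j - f x)‖
        ≤ (∫ x in (j:ℝ)..(j:ℝ) + 1, ‖f' x‖) * |(j:ℝ) + 1 - j| := by
          have := intervalIntegral.norm_integral_le_of_norm_le_const
            (a := (j:ℝ)) (b := (j:ℝ) + 1) (f := fun x => f j - f x)
            (C := ∫ x in (j:ℝ)..(j:ℝ) + 1, ‖f' x‖) (by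
              intro x hx
              rw [Set.uIoc_of_le (by linarith)] at hx
              exact hb x ⟨hx.1.le, hx.2⟩)
          exact this
      _ = _ := by simp
  have hs : Summable (fun j : ℤ => f j - ∫ x in (j:ℝ)..(j:ℝ) + 1, f x) :=
    Summable.of_norm_bounded h2.summable key
  have hsf : Summable (fun j : ℤ => f j) := by
    have := hs.add h1.summable
    simpa using this
  refine ⟨hsf, ?_⟩
  rw [← h1.tsum_eq, ← h2.tsum_eq, ← hsf.tsum_sub h1.summable]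
  exact (norm_tsum_le_tsum_norm hs.norm).trans (hs.norm.tsum_le_tsum key h2.summable)

theorem EM2 {g g' : ℝ → ℂ} (hg : ∀ x, HasDerivAt g (g' x) x) (hi : Integrable g)
    (hi' : Integrable g') {β : ℝ} (hβ : 0 < β) (τ : ℝ) :
    Summable (fun j : ℤ => g (β * j + τ)) ∧
      ‖∑' j : ℤ, g (β * j + τ) - (β⁻¹ : ℝ) * ∫ x, g x‖ ≤ ∫ x, ‖g' x‖ := by
  have h1 : ∀ x : ℝ, HasDerivAt (fun x : ℝ => g (β * x + τ)) ((β : ℂ) * g' (β * x + τ)) x := by
    intro x
    have h2 : HasDerivAt (fun x : ℝ => β * x + τ) β x := by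
      simpa using ((hasDerivAt_id x).const_mul β).add_const τ
    have := (hg (β * x + τ)).scomp x h2
    simpa [Function.comp_def] using this
  have hci : ∀ h : ℝ → ℂ, Integrable h → Integrable (fun x => h (β * x + τ)) := by
    intro h hh
    exact (hh.comp_add_right τ).comp_mul_left' hβ.ne'
  have hint : ∀ h : ℝ → ℂ, ∫ x, h (β * x + τ) = (β⁻¹ : ℝ) * ∫ x, h x := by
    intro h
    have e1 := Measure.integral_comp_mul_left (fun y => h (y + τ)) β
    rw [e1, integral_add_right_eq_self, abs_of_pos (inv_pos.2 hβ), Complex.real_smul]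
  have hint' : ∀ h : ℝ → ℝ, ∫ x, h (β * x + τ) = β⁻¹ * ∫ x, h x := by
    intro h
    have e1 := Measure.integral_comp_mul_left (fun y => h (y + τ)) β
    rw [e1, integral_add_right_eq_self, abs_of_pos (inv_pos.2 hβ), smul_eq_mul]
  obtain ⟨hs, hb⟩ := EM h1 (hci g hi) ((hci g' hi').const_mul (β : ℂ))
  refine ⟨hs, ?_⟩
  rw [hint g] at hb
  refine hb.trans (le_of_eq ?_)
  have : ∀ x, ‖(β : ℂ) * g' (β * x + τ)‖ = β * (fun y => ‖g' y‖) (β * x + τ) := by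
    intro x; rw [norm_mul, Complex.norm_real, Real.norm_eq_abs, abs_of_pos hβ]
  simp_rw [this]
  rw [integral_const_mul, hint' (fun y => ‖g' y‖), ← mul_assoc, mul_inv_cancel₀ hβ.ne', one_mul]

/-- `(1+t²)^(-s)` -/
def gc (s : ℂ) (t : ℝ) : ℂ := ((1 + t ^ 2 : ℝ) : ℂ) ^ (-s)

/-- its derivative -/
def gc' (s : ℂ) (t : ℝ) : ℂ := -s * (2 * t : ℝ) * ((1 + t ^ 2 : ℝ) : ℂ) ^ (-s - 1)

theorem one_add_sq_pos (t : ℝ) : 0 < 1 + t ^ 2 := by positivity

theorem hasDerivAt_gc (s : ℂ) (t : ℝ) : HasDerivAt (gc s) (gc' s t) t := by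
  unfold gc gc'
  have h0 : HasDerivAt (fun t : ℝ => 1 + t ^ 2) (2 * t) t := by
    simpa using ((hasDerivAt_pow 2 t).const_add 1)
  have h1 : HasDerivAt (fun t : ℝ => ((1 + t ^ 2 : ℝ) : ℂ)) ((2 * t : ℝ) : ℂ) t := h0.ofReal_comp
  have h3 : HasDerivAt (fun z : ℂ => z ^ (-s)) (-s * ((1 + t ^ 2 : ℝ) : ℂ) ^ (-s - 1))
      ((1 + t ^ 2 : ℝ) : ℂ) := by
    have := (hasDerivAt_id ((1 + t ^ 2 : ℝ) : ℂ)).cpow_const (c := -s) (Or.inl (by
      rw [id, Complex.ofReal_re]; exact one_add_sq_pos t))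
    simpa using this
  have h2 := h3.scomp t h1
  rw [smul_eq_mul] at h2
  have e : -s * ((2 * t : ℝ) : ℂ) * ((1 + t ^ 2 : ℝ) : ℂ) ^ (-s - 1) =
      ((2 * t : ℝ) : ℂ) * (-s * ((1 + t ^ 2 : ℝ) : ℂ) ^ (-s - 1)) := by ring
  rw [e]
  exact h2

theorem norm_gc (s : ℂ) (t : ℝ) : ‖gc s t‖ = gs s.re t := by
  unfold gc gs
  rw [Complex.norm_cpow_eq_rpow_re_of_pos (one_add_sq_pos t), Complex.neg_re]

theorem norm_gc'_le {s : ℂ} (hs : 1 ≤ s.re) (t : ℝ) : ‖gc' s t‖ ≤ 2 * ‖s‖ * (1 + t ^ 2)⁻¹ := by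
  unfold gc'
  have h0 := one_add_sq_pos t
  rw [norm_mul, norm_mul, norm_neg, Complex.norm_cpow_eq_rpow_re_of_pos h0, Complex.norm_real,
    Real.norm_eq_abs, abs_mul, abs_of_pos (by norm_num : (0 : ℝ) < 2)]
  have h1 : |t| ≤ 1 + t ^ 2 := by
    rcases abs_cases t with ⟨h, _⟩ | ⟨h, _⟩ <;> rw [h] <;>
      nlinarith [sq_nonneg (t - 1), sq_nonneg (t + 1)]
  have h2 : (1 + t ^ 2) ^ (-s - 1).re ≤ (1 + t ^ 2) ^ (-2 : ℝ) :=
    Real.rpow_le_rpow_of_exponent_le (by nlinarith [sq_nonneg t]) (by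
      simp only [Complex.sub_re, Complex.neg_re, Complex.one_re]; linarith)
  calc ‖s‖ * (2 * |t|) * (1 + t ^ 2) ^ (-s - 1).re ≤
        ‖s‖ * (2 * (1 + t ^ 2)) * (1 + t ^ 2) ^ (-2 : ℝ) := by gcongr
    _ = 2 * ‖s‖ * (1 + t ^ 2)⁻¹ := by
        rw [Real.rpow_neg h0.le, Real.rpow_two]
        field_simp

theorem continuous_gc (s : ℂ) : Continuous (gc s) :=
  continuous_iff_continuousAt.2 fun x => (hasDerivAt_gc s x).continuousAt

theorem continuous_gc' (s : ℂ) : Continuous (gc' s) := by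
  unfold gc'
  refine Continuous.mul (by fun_prop) ?_
  have h := (continuous_gc (s + 1))
  unfold gc at h
  rw [neg_add'] at h
  exact h

theorem integrable_gc {s : ℂ} (hs : 1 ≤ s.re) : Integrable (gc s) := by
  refine integrable_inv_one_add_sq.mono' (continuous_gc s).aestronglyMeasurable ?_
  exact Eventually.of_forall fun t => by
    rw [norm_gc]; exact gs_le hs t

theorem integrable_gc' {s : ℂ} (hs : 1 ≤ s.re) : Integrable (gc' s) := by
  refine (integrable_inv_one_add_sq.const_mul (2 * ‖s‖)).mono'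
    (continuous_gc' s).aestronglyMeasurable ?_
  exact Eventually.of_forall fun t => norm_gc'_le hs t

/-- `∫ (1+t²)^(-s)` -/
def BC (s : ℂ) : ℂ := ∫ t, gc s t

theorem norm_BC_le {s : ℂ} (hs : 1 ≤ s.re) : ‖BC s‖ ≤ Real.pi := by
  rw [← integral_univ_inv_one_add_sq]
  refine (norm_integral_le_integral_norm _).trans ?_
  refine integral_mono (integrable_gc hs).norm integrable_inv_one_add_sq fun t => ?_
  simp only
  rw [norm_gc]
  exact gs_le hs t

theorem int_gc'_le {s : ℂ} (hs : 1 ≤ s.re) : ∫ t, ‖gc' s t‖ ≤ 2 * ‖s‖ * Real.pi := by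
  rw [← integral_univ_inv_one_add_sq, ← integral_const_mul]
  exact integral_mono (integrable_gc' hs).norm (integrable_inv_one_add_sq.const_mul _)
    (norm_gc'_le hs)

/-- **The one-dimensional sum.** -/
theorem sum_line {s : ℂ} (hs : 1 ≤ s.re) {N α : ℝ} (hN : 0 < N) (hα : 0 < α) (θ : ℝ) :
    Summable (fun j : ℤ => (((θ + N * j) ^ 2 + α ^ 2 : ℝ) : ℂ) ^ (-s)) ∧
    ‖∑' j : ℤ, (((θ + N * j) ^ 2 + α ^ 2 : ℝ) : ℂ) ^ (-s) -
      ((N⁻¹ : ℝ) : ℂ) * (α : ℂ) ^ (1 - 2 * s) * BC s‖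
      ≤ 2 * ‖s‖ * Real.pi * α ^ (-(2 * s.re)) := by
  have hβ : 0 < N / α := by positivity
  obtain ⟨h1, h2⟩ := EM2 (hasDerivAt_gc s) (integrable_gc hs) (integrable_gc' hs) hβ (θ / α)
  have hαc : (α : ℂ) ≠ 0 := by exact_mod_cast hα.ne'
  have e : ∀ j : ℤ, (((θ + N * j) ^ 2 + α ^ 2 : ℝ) : ℂ) ^ (-s) =
      (α : ℂ) ^ (-(2 * s)) * gc s (N / α * j + θ / α) := by
    intro j
    unfold gc
    have e1 : (θ + N * j) ^ 2 + α ^ 2 = α * α * (1 + (N / α * j + θ / α) ^ 2) := by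
      field_simp
      ring
    rw [e1, Complex.ofReal_mul, Complex.mul_cpow_ofReal_nonneg (by positivity) (by positivity),
      Complex.ofReal_mul, Complex.mul_cpow_ofReal_nonneg hα.le hα.le, ← Complex.cpow_add _ _ hαc]
    congr 2
    ring
  simp_rw [e]
  refine ⟨h1.mul_left _, ?_⟩
  rw [tsum_mul_left]
  have e2 : ((N⁻¹ : ℝ) : ℂ) * (α : ℂ) ^ (1 - 2 * s) * BC s =
      (α : ℂ) ^ (-(2 * s)) * ((((N / α)⁻¹ : ℝ) : ℂ) * ∫ x, gc s x) := by
    rw [show (1 - 2 * s) = -(2 * s) + 1 by ring, Complex.cpow_add _ _ hαc, Complex.cpow_one]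
    unfold BC
    have hNc : (N : ℂ) ≠ 0 := by exact_mod_cast hN.ne'
    push_cast
    field_simp
  rw [e2, ← mul_sub, norm_mul, Complex.norm_cpow_eq_rpow_re_of_pos hα, mul_comm (2 * ‖s‖ * Real.pi)]
  have e3 : (-(2 * s)).re = -(2 * s.re) := by simp
  rw [e3]
  gcongr
  exact h2.trans (int_gc'_le hs)

end

end Pool.Agent.Y149.CR
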