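import Pool.Agent.Y722.RS.Local

/-! The local factors of the Rankin-Selberg series of two eigenforms at complex arguments. -/

set_option autoImplicit false

namespace Pool.Agent.Y149.CR

open Filter Topology
open Pool.Agent.TH941 (KK summable_aux KK_nonneg)
open Pool.Agent.Y722.RS (Loc log20)

/-- shifted sums -/
noncomputable def S (c d : ℕ → ℝ) (x : ℂ) (j : ℕ) : ℂ :=
  ∑' k : ℕ, ((c (k + j) * d (k + j) : ℝ) : ℂ) * x ^ k

variable {c d : ℕ → ℝ} {t e t' e' : ℝ} {x : ℂ}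

theorem S_bound (h : Loc c t e) (h' : Loc d t' e') (hx2 : ‖x‖ ≤ 1 / 2) (j k : ℕ) :
    ‖((c (k + j) * d (k + j) : ℝ) : ℂ) * x ^ k‖ ≤ ((k : ℝ) + (j + 1 : ℕ)) ^ 2 * (1 / 2 : ℝ) ^ k := by
  rw [norm_mul, Complex.norm_real, norm_mul, Real.norm_eq_abs, Real.norm_eq_abs, norm_pow]
  have h1 := h.le (k + j)
  have h2 := h'.le (k + j)
  push_cast at h1 h2 ⊢
  have h3 : |c (k + j)| * |d (k + j)| ≤ ((k : ℝ) + (j + 1)) ^ 2 := by
    rw [sq, ← add_assoc]
    exact mul_le_mul h1 h2 (abs_nonneg _) (by positivity)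
  exact mul_le_mul h3 (pow_le_pow_left₀ (norm_nonneg _) hx2 k) (by positivity) (by positivity)

theorem S_summable (h : Loc c t e) (h' : Loc d t' e') (hx2 : ‖x‖ ≤ 1 / 2) (j : ℕ) :
    Summable fun k : ℕ => ((c (k + j) * d (k + j) : ℝ) : ℂ) * x ^ k :=
  Summable.of_norm_bounded (summable_aux (j + 1)) (S_bound h h' hx2 j)

theorem S_step (h : Loc c t e) (h' : Loc d t' e') (hx2 : ‖x‖ ≤ 1 / 2) (j : ℕ) :
    S c d x j = ((c j * d j : ℝ) : ℂ) + x * S c d x (j + 1) := by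
  unfold S
  rw [(S_summable h h' hx2 j).tsum_eq_zero_add, ← tsum_mul_left]
  congr 1
  · simp
  · refine tsum_congr fun k => ?_
    rw [show k + 1 + j = k + (j + 1) by ring]
    ring

theorem S_rec (h : Loc c t e) (h' : Loc d t' e') (hx2 : ‖x‖ ≤ 1 / 2) :
    S c d x 4 = t * t' * S c d x 3 - (e' * t ^ 2 + e * t' ^ 2 - 2 * e * e') * S c d x 2 +
      e * e' * t * t' * S c d x 1 - e ^ 2 * e' ^ 2 * S c d x 0 := by
  have hs := S_summable h h' hx2
  unfold S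
  rw [← tsum_mul_left, ← tsum_mul_left, ← tsum_mul_left, ← tsum_mul_left,
    ← ((hs 3).mul_left _).tsum_sub ((hs 2).mul_left _),
    ← (((hs 3).mul_left _).sub ((hs 2).mul_left _)).tsum_add ((hs 1).mul_left _),
    ← ((((hs 3).mul_left _).sub ((hs 2).mul_left _)).add ((hs 1).mul_left _)).tsum_sub
      ((hs 0).mul_left _)]
  refine tsum_congr fun k => ?_
  have a2 := h.step k
  have a3 := h.step (k + 1)
  have a4 := h.step (k + 2)
  have b2 := h'.step k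
  have b3 := h'.step (k + 1)
  have b4 := h'.step (k + 2)
  rw [show k + 1 + 2 = k + 3 by ring, show k + 1 + 1 = k + 2 by ring] at a3 b3
  rw [show k + 2 + 2 = k + 4 by ring, show k + 2 + 1 = k + 3 by ring] at a4 b4
  rw [a4, a3, a2, b4, b3, b2, add_zero]
  push_cast
  ring

/-- **Closed form.** -/
theorem S_closed (h : Loc c t e) (h' : Loc d t' e') (hx2 : ‖x‖ ≤ 1 / 2) :
    (1 - t * t' * x + (e' * t ^ 2 + e * t' ^ 2 - 2 * e * e') * x ^ 2 - e * e' * t * t' * x ^ 3 +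
      e ^ 2 * e' ^ 2 * x ^ 4) * S c d x 0 = 1 - e * e' * x ^ 2 := by
  have h0 := S_step h h' hx2 0
  have h1 := S_step h h' hx2 1
  have h2 := S_step h h' hx2 2
  have h3 := S_step h h' hx2 3
  have h4 := S_rec h h' hx2
  have c2 := h.step 0
  have c3 := h.step 1
  have d2 := h'.step 0
  have d3 := h'.step 1
  norm_num at h0 h1 h2 h3 c2 c3 d2 d3
  rw [h.zero, h'.zero] at h0
  rw [h.one, h'.one] at h1
  rw [h.zero, h.one] at c2
  rw [h'.zero, h'.one] at d2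
  rw [c2, h.one] at c3
  rw [d2, h'.one] at d3
  rw [c2, d2] at h2
  rw [c3, d3] at h3
  rw [h4] at h3
  push_cast at h0 h1 h2 h3
  set A := S c d x 0
  set B := S c d x 1
  set C := S c d x 2
  set D := S c d x 3
  linear_combination (1 - t * t' * x + (e' * t ^ 2 + e * t' ^ 2 - 2 * e * e') * x ^ 2 -
      e * e' * t * t' * x ^ 3) * h0 + (x - t * t' * x ^ 2 +
      (e' * t ^ 2 + e * t' ^ 2 - 2 * e * e') * x ^ 3) * h1 + (x ^ 2 - t * t' * x ^ 3) * h2 +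
      x ^ 3 * h3

theorem S_lower (h : Loc c t e) (h' : Loc d t' e') (hx2 : ‖x‖ ≤ 1 / 2) :
    1 / 20 ≤ ‖S c d x 0‖ := by
  have h1 := S_closed h h' hx2
  have ht := h.t_le
  have ht' := h'.t_le
  have he0 := h.e0
  have he1 := h.e1
  have he0' := h'.e0
  have he1' := h'.e1
  have hx := norm_nonneg x
  have htt : |t * t'| ≤ 4 := by
    rw [abs_mul]
    calc |t| * |t'| ≤ 2 * 2 := mul_le_mul ht ht' (abs_nonneg _) (by norm_num)
      _ = 4 := by norm_num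
  have hee0 : 0 ≤ e * e' := mul_nonneg he0 he0'
  have hee1 : e * e' ≤ 1 := mul_le_one₀ he1 he0' he1'
  have hx4 : ‖x‖ ^ 2 ≤ 1 / 4 := by nlinarith
  have hx3 : ‖x‖ ^ 3 ≤ 1 / 8 := by nlinarith [sq_nonneg ‖x‖]
  have hx44 : ‖x‖ ^ 4 ≤ 1 / 16 := by nlinarith [sq_nonneg ‖x‖]
  have hr : 3 / 4 ≤ ‖1 - (e : ℂ) * e' * x ^ 2‖ := by
    have h3 := norm_sub_norm_le (1 : ℂ) ((e : ℂ) * e' * x ^ 2)
    rw [norm_one, norm_mul, norm_pow, ← Complex.ofReal_mul, Complex.norm_real, Real.norm_eq_abs,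
      abs_of_nonneg hee0] at h3
    have h4 : e * e' * ‖x‖ ^ 2 ≤ 1 * (1 / 4) :=
      mul_le_mul hee1 hx4 (by positivity) zero_le_one
    rw [← Complex.ofReal_mul]
    linarith
  have hP : ‖1 - (t : ℂ) * t' * x + ((e' : ℂ) * t ^ 2 + e * t' ^ 2 - 2 * e * e') * x ^ 2 -
      e * e' * t * t' * x ^ 3 + e ^ 2 * e' ^ 2 * x ^ 4‖ ≤ 15 := by
    have a1 : ‖(t : ℂ) * t' * x‖ ≤ 2 := by
      rw [norm_mul, ← Complex.ofReal_mul, Complex.norm_real, Real.norm_eq_abs]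
      nlinarith [abs_nonneg (t * t')]
    have t2 : t ^ 2 ≤ 4 := by rw [← sq_abs]; nlinarith [abs_nonneg t]
    have t2' : t' ^ 2 ≤ 4 := by rw [← sq_abs]; nlinarith [abs_nonneg t']
    have a2 : ‖((e' : ℂ) * t ^ 2 + e * t' ^ 2 - 2 * e * e') * x ^ 2‖ ≤ 10 * (1 / 4) := by
      have e3 : ((e' : ℂ) * t ^ 2 + e * t' ^ 2 - 2 * e * e') =
          ((e' * t ^ 2 + e * t' ^ 2 - 2 * e * e' : ℝ) : ℂ) := by push_cast; ring
      rw [e3, norm_mul, norm_pow, Complex.norm_real, Real.norm_eq_abs]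
      refine mul_le_mul ?_ hx4 (by positivity) (by norm_num)
      have q1 : 0 ≤ e' * t ^ 2 := by positivity
      have q2 : 0 ≤ e * t' ^ 2 := by positivity
      have q3 : e' * t ^ 2 ≤ 4 := by nlinarith [sq_nonneg t]
      have q4 : e * t' ^ 2 ≤ 4 := by nlinarith [sq_nonneg t']
      rw [abs_le]
      constructor <;> nlinarith
    have a3 : ‖(e : ℂ) * e' * t * t' * x ^ 3‖ ≤ 4 * (1 / 8) := by
      have : (e : ℂ) * e' * t * t' * x ^ 3 = ((e * e' : ℝ) : ℂ) * (((t * t' : ℝ) : ℂ) * x ^ 3) := by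
        push_cast; ring
      rw [this, norm_mul, norm_mul, norm_pow, Complex.norm_real, Complex.norm_real,
        Real.norm_eq_abs, Real.norm_eq_abs, abs_of_nonneg hee0]
      have q1 : |t * t'| * ‖x‖ ^ 3 ≤ 4 * (1 / 8) :=
        mul_le_mul htt hx3 (by positivity) (by norm_num)
      have q2 : 0 ≤ |t * t'| * ‖x‖ ^ 3 := by positivity
      nlinarith
    have a4 : ‖(e : ℂ) ^ 2 * e' ^ 2 * x ^ 4‖ ≤ 1 := by
      have : (e : ℂ) ^ 2 * e' ^ 2 * x ^ 4 = (((e * e') ^ 2 : ℝ) : ℂ) * x ^ 4 := by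
        push_cast; ring
      rw [this, norm_mul, norm_pow, Complex.norm_real, Real.norm_eq_abs,
        abs_of_nonneg (by positivity)]
      have q1 : (e * e') ^ 2 ≤ 1 := by nlinarith
      have q2 : 0 ≤ (e * e') ^ 2 := by positivity
      have q3 : 0 ≤ ‖x‖ ^ 4 := by positivity
      nlinarith
    have b1 := norm_add_le (1 - (t : ℂ) * t' * x + ((e' : ℂ) * t ^ 2 + e * t' ^ 2 - 2 * e * e') *
      x ^ 2 - e * e' * t * t' * x ^ 3) (e ^ 2 * e' ^ 2 * x ^ 4)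
    have b2 := norm_sub_le (1 - (t : ℂ) * t' * x + ((e' : ℂ) * t ^ 2 + e * t' ^ 2 - 2 * e * e') *
      x ^ 2) (e * e' * t * t' * x ^ 3)
    have b3 := norm_add_le (1 - (t : ℂ) * t' * x) (((e' : ℂ) * t ^ 2 + e * t' ^ 2 - 2 * e * e') *
      x ^ 2)
    have b4 := norm_sub_le (1 : ℂ) ((t : ℂ) * t' * x)
    rw [norm_one] at b4
    linarith
  have h2 := congrArg norm h1
  rw [norm_mul] at h2
  have h3 : 3 / 4 ≤ 15 * ‖S c d x 0‖ := by
    calc 3 / 4 ≤ ‖1 - (e : ℂ) * e' * x ^ 2‖ := hr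
      _ = _ := h2.symm
      _ ≤ 15 * ‖S c d x 0‖ := mul_le_mul_of_nonneg_right hP (norm_nonneg _)
  linarith

/-- the constant -/
noncomputable def KD : ℝ := KK + 13 * (4 + KK) ^ 2 + (2 + Real.log 20) * (8 + 2 * KK) ^ 2

theorem KD_nonneg : 0 ≤ KD := by
  unfold KD
  have := KK_nonneg
  have := log20
  positivity

/-- the logarithm near one -/
theorem log_one_add {y : ℂ} (hy : ‖y‖ ≤ 1 / 2) : y.re - 13 * ‖y‖ ^ 2 ≤ Real.log ‖1 + y‖ := by
  have hn := norm_nonneg y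
  have h1 : 1 / 2 ≤ ‖1 + y‖ := by
    have := norm_sub_norm_le (1 : ℂ) (-y)
    rw [sub_neg_eq_add, norm_neg, norm_one] at this
    linarith
  set u : ℝ := 2 * y.re + ‖y‖ ^ 2 with hu
  have h2 : ‖1 + y‖ ^ 2 = 1 + u := by
    rw [hu, ← Complex.normSq_eq_norm_sq, ← Complex.normSq_eq_norm_sq, Complex.normSq_apply,
      Complex.normSq_apply]
    simp
    ring
  have h3 : 1 / 4 ≤ 1 + u := by rw [← h2]; nlinarith
  have h4 : Real.log ‖1 + y‖ = Real.log (1 + u) / 2 := by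
    rw [← h2, Real.log_pow]
    push_cast
    ring
  have h5 : 1 - (1 + u)⁻¹ ≤ Real.log (1 + u) := Real.one_sub_inv_le_log_of_pos (by linarith)
  have h6 : u - 4 * u ^ 2 ≤ 1 - (1 + u)⁻¹ := by
    have e1 : 1 - (1 + u)⁻¹ = u / (1 + u) := by
      have : 1 + u ≠ 0 := by linarith
      field_simp
      ring
    rw [e1, le_div_iff₀ (by linarith)]
    nlinarith [sq_nonneg u]
  have h7 : |u| ≤ 5 / 2 * ‖y‖ := by
    rw [hu]
    refine (abs_add_le _ _).trans ?_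
    rw [abs_mul, abs_of_pos (by norm_num : (0 : ℝ) < 2), abs_of_nonneg (sq_nonneg ‖y‖)]
    have := Complex.abs_re_le_norm y
    nlinarith
  have h8 : u ^ 2 ≤ 25 / 4 * ‖y‖ ^ 2 := by
    have := pow_le_pow_left₀ (abs_nonneg u) h7 2
    rw [sq_abs] at this
    nlinarith
  rw [h4]
  nlinarith [sq_nonneg ‖y‖]

/-- **Lower bound for the logarithm of a local factor.** -/
theorem log_lower (h : Loc c t e) (h' : Loc d t' e') (hx2 : ‖x‖ ≤ 1 / 2) :
    t * t' * x.re - KD * ‖x‖ ^ 2 ≤ Real.log ‖S c d x 0‖ := by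
  have hK := KK_nonneg
  have hL := log20
  have hx := norm_nonneg x
  have h0 := S_step h h' hx2 0
  have h1 := S_step h h' hx2 1
  norm_num at h0 h1
  rw [h.zero, h'.zero] at h0
  rw [h.one, h'.one] at h1
  have h2 : ‖S c d x 2‖ ≤ KK := by
    have hb := tsum_of_norm_bounded (summable_aux 3).hasSum (S_bound h h' hx2 2)
    refine hb.trans (le_of_eq ?_)
    unfold KK
    norm_num
  have htt : |t * t'| ≤ 4 := by
    rw [abs_mul]
    calc |t| * |t'| ≤ 2 * 2 := mul_le_mul h.t_le h'.t_le (abs_nonneg _) (by norm_num)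
      _ = 4 := by norm_num
  set y : ℂ := ((t * t' : ℝ) : ℂ) * x + x ^ 2 * S c d x 2 with hy
  have hS : S c d x 0 = 1 + y := by rw [h0, h1, hy]; push_cast; ring
  have hx2' : ‖x‖ ^ 2 ≤ ‖x‖ / 2 := by nlinarith
  have hyb : ‖y‖ ≤ (4 + KK) * ‖x‖ := by
    rw [hy]
    refine (norm_add_le _ _).trans ?_
    rw [norm_mul, norm_mul, norm_pow, Complex.norm_real, Real.norm_eq_abs]
    have q1 : |t * t'| * ‖x‖ ≤ 4 * ‖x‖ := mul_le_mul_of_nonneg_right htt hx
    have q2 : ‖x‖ ^ 2 * ‖S c d x 2‖ ≤ ‖x‖ * KK :=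
      mul_le_mul (by linarith) h2 (norm_nonneg _) hx
    linarith
  have hx20 : 0 ≤ ‖x‖ ^ 2 := sq_nonneg _
  by_cases hc : ‖y‖ ≤ 1 / 2
  · have h3 := log_one_add hc
    rw [hS]
    have h5 : ‖y‖ ^ 2 ≤ ((4 + KK) * ‖x‖) ^ 2 := pow_le_pow_left₀ (norm_nonneg _) hyb 2
    have h6 : t * t' * x.re - KK * ‖x‖ ^ 2 ≤ y.re := by
      rw [hy, Complex.add_re, Complex.re_ofReal_mul]
      have h7 : -(‖x‖ ^ 2 * KK) ≤ (x ^ 2 * S c d x 2).re := by
        have h8 := (abs_le.1 (Complex.abs_re_le_norm (x ^ 2 * S c d x 2))).1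
        rw [norm_mul, norm_pow] at h8
        have h9 := mul_le_mul_of_nonneg_left h2 hx20
        linarith
      linarith
    have h7 : 0 ≤ (2 + Real.log 20) * (8 + 2 * KK) ^ 2 * ‖x‖ ^ 2 := by positivity
    unfold KD
    nlinarith
  · push Not at hc
    have h3 : 1 ≤ (8 + 2 * KK) * ‖x‖ := by linarith
    have h4 : 1 ≤ (8 + 2 * KK) ^ 2 * ‖x‖ ^ 2 := by
      rw [← mul_pow]
      exact one_le_pow₀ h3
    have h5 := S_lower h h' hx2
    have h6 : -Real.log 20 ≤ Real.log ‖S c d x 0‖ := by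
      rw [← Real.log_inv]
      refine Real.log_le_log (by norm_num) ?_
      norm_num
      linarith
    have h7 : t * t' * x.re ≤ 2 := by
      calc t * t' * x.re ≤ |t * t'| * |x.re| := by
            rw [← abs_mul]; exact le_abs_self _
        _ ≤ 4 * (1 / 2) := mul_le_mul htt ((Complex.abs_re_le_norm x).trans hx2) (abs_nonneg _)
            (by norm_num)
        _ = 2 := by norm_num
    have h8 : 2 + Real.log 20 ≤ (2 + Real.log 20) * ((8 + 2 * KK) ^ 2 * ‖x‖ ^ 2) :=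
      le_mul_of_one_le_right (by linarith) h4
    have h9 : 0 ≤ (KK + 13 * (4 + KK) ^ 2) * ‖x‖ ^ 2 := by positivity
    unfold KD
    nlinarith

end Pool.Agent.Y149.CR
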