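import Pool.Agent.Y149.CR.Pol
import Pool.Agent.Y149.CR.Loc
import Pool.Agent.Y722.RS.Euler

/-! One-sided orthogonality of eigenforms at every height. -/

set_option autoImplicit false

namespace Pool.Agent.Y149.CR

open Filter Topology UpperHalfPlane CongruenceSubgroup
open scoped MatrixGroups ModularForm
open Pool.Agent.W165.RS (ac ac_zero)
open Pool.Agent.TH941 (gg gg_nonneg Hecke rpow_half)
open Pool.Agent.H341R2 (E lam)
open Pool.Agent.Y722.RS (S2 Sm_of Sm_rc rc rc_eq rc_one rc_zero rc_mul CR_summable loc_of tt tt_le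
  Loc shift_nhds)

section
variable {M₁ M₂ : ℕ} [NeZero M₁] [NeZero M₂] {f : S2 M₁} {g : S2 M₂}

/-- the local factor -/
noncomputable def LF (f : S2 M₁) (g : S2 M₂) (s : ℂ) (p : ℕ) : ℂ :=
  S (fun k => rc f (p ^ k) / Real.sqrt p ^ k) (fun k => rc g (p ^ k) / Real.sqrt p ^ k)
    ((p : ℂ) ^ (-s)) 0

theorem pow_cpow {p : ℕ} (hp : 0 < p) (k : ℕ) (s : ℂ) :
    ((p ^ k : ℕ) : ℂ) ^ (-s) = ((p : ℂ) ^ (-s)) ^ k := by
  have hp0 : (0 : ℝ) < p := by exact_mod_cast hp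
  have e1 : ((p ^ k : ℕ) : ℂ) = (((p : ℝ) ^ k : ℝ) : ℂ) := by push_cast; rfl
  have e2 : (p : ℂ) = ((p : ℝ) : ℂ) := by push_cast; rfl
  rw [e1, e2, cpow_exp (by positivity), cpow_exp hp0, ← Complex.exp_nat_mul, Real.log_pow]
  congr 1
  push_cast
  ring

theorem summable_CC (hf : Hecke f) (hg : Hecke g) {s : ℂ} (hs : 1 < s.re) :
    Summable fun n : ℕ => ‖((rc f n * rc g n / n : ℝ) : ℂ) * (n : ℂ) ^ (-s)‖ := by
  have sf := Sm_rc hf.real (Sm_of hf s.re hs)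
  have sg := Sm_rc hg.real (Sm_of hg s.re hs)
  refine (CR_summable sf sg).congr fun n => ?_
  rw [norm_mul, Complex.norm_real, Real.norm_eq_abs, abs_mul]
  rcases Nat.eq_zero_or_pos n with hn | hn
  · subst hn
    rw [rc_zero]; simp
  · rw [Complex.norm_natCast_cpow_of_pos hn, Complex.neg_re,
      abs_of_nonneg (by positivity : 0 ≤ (n : ℝ) ^ (-s.re))]

theorem hasProd_CC (hf : Hecke f) (hg : Hecke g) {s : ℂ} (hs : 1 < s.re) :
    HasProd (fun p : Nat.Primes => LF f g s p) (CC (rc f) (rc g) s) := by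
  have hsum := summable_CC hf hg hs
  have h1 : ((rc f 1 * rc g 1 / ((1 : ℕ) : ℝ) : ℝ) : ℂ) * ((1 : ℕ) : ℂ) ^ (-s) = 1 := by
    rw [rc_one hf, rc_one hg]; simp
  have hmul : ∀ {m n : ℕ}, Nat.Coprime m n →
      ((rc f (m * n) * rc g (m * n) / ((m * n : ℕ) : ℝ) : ℝ) : ℂ) * ((m * n : ℕ) : ℂ) ^ (-s) =
      ((rc f m * rc g m / (m : ℝ) : ℝ) : ℂ) * (m : ℂ) ^ (-s) *
        (((rc f n * rc g n / (n : ℝ) : ℝ) : ℂ) * (n : ℂ) ^ (-s)) := by
    intro m n h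
    rw [rc_mul hf h, rc_mul hg h, Nat.cast_mul, Nat.cast_mul, Complex.natCast_mul_natCast_cpow,
      show rc f m * rc f n * (rc g m * rc g n) = (rc f m * rc g m) * (rc f n * rc g n) by ring,
      mul_div_mul_comm]
    push_cast
    ring
  have h := EulerProduct.eulerProduct_hasProd
    (f := fun n : ℕ => ((rc f n * rc g n / n : ℝ) : ℂ) * (n : ℂ) ^ (-s)) h1 hmul hsum (by
      rw [rc_zero]; simp)
  refine h.congr_fun fun p => ?_
  unfold LF S
  refine tsum_congr fun k => ?_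
  have hp0 : (0 : ℝ) < (p : ℕ) := by exact_mod_cast p.2.pos
  have hs2 : Real.sqrt (p : ℕ) ^ k * Real.sqrt (p : ℕ) ^ k = ((p : ℕ) : ℝ) ^ k := by
    rw [← mul_pow, Real.mul_self_sqrt hp0.le]
  simp only [add_zero]
  rw [div_mul_div_comm, hs2, pow_cpow p.2.pos]
  push_cast
  rfl

theorem norm_p {s : ℂ} (p : Nat.Primes) :
    ‖((p : ℕ) : ℂ) ^ (-s)‖ = ((p : ℕ) : ℝ) ^ (-s.re) := by
  rw [Complex.norm_natCast_cpow_of_pos p.2.pos, Complex.neg_re]

theorem LF_lower (hf : Hecke f) (hg : Hecke g) {s : ℂ} (hs : 1 < s.re) (p : Nat.Primes) :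
    0 < ‖LF f g s p‖ ∧ tt f p * tt g p * (((p : ℕ) : ℂ) ^ (-s)).re -
      KD * (((p : ℕ) : ℝ) ^ (-s.re)) ^ 2 ≤ Real.log ‖LF f g s p‖ := by
  classical
  obtain ⟨h0, h1, _⟩ := rpow_half p.2 hs.le
  have a := loc_of hf p.2
  have b := loc_of hg p.2
  have hx : ‖((p : ℕ) : ℂ) ^ (-s)‖ ≤ 1 / 2 := by rw [norm_p]; exact h1
  have h2 := log_lower a b hx
  rw [norm_p] at h2
  exact ⟨lt_of_lt_of_le (by norm_num) (S_lower a b hx), h2⟩

/-- the constant from the prime powers -/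
noncomputable def K2 : ℝ := KD * ∑' p : Nat.Primes, ((p : ℕ) : ℝ) ^ (-2 : ℝ)

/-- the real part of `p^{-iτ}` -/
noncomputable def zr (τ : ℝ) (p : ℕ) : ℝ := ((p : ℂ) ^ (-((τ : ℂ) * Complex.I))).re

theorem re_cpow (τ ε : ℝ) (p : Nat.Primes) :
    (((p : ℕ) : ℂ) ^ (-(((1 + ε : ℝ) : ℂ) + τ * Complex.I))).re =
      zr τ p * ((p : ℕ) : ℝ) ^ (-(1 + ε)) := by
  have hp0 : (0 : ℝ) < (p : ℕ) := by exact_mod_cast p.2.pos
  have hpc : ((p : ℕ) : ℂ) ≠ 0 := by exact_mod_cast p.2.ne_zero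
  unfold zr
  rw [neg_add, Complex.cpow_add _ _ hpc, ← Complex.ofReal_neg, ← Complex.ofReal_natCast,
    ← Complex.ofReal_cpow hp0.le, Complex.re_ofReal_mul]
  ring

theorem abs_zr_le (τ : ℝ) {p : ℕ} (hp : 0 < p) : |zr τ p| ≤ 1 := by
  unfold zr
  refine (Complex.abs_re_le_norm _).trans (le_of_eq ?_)
  rw [Complex.norm_natCast_cpow_of_pos hp]
  simp

/-- **Lower bound for the Rankin-Selberg series.** -/
theorem E_le_log (hf : Hecke f) (hg : Hecke g) (τ : ℝ) {ε : ℝ} (hε : 0 < ε) :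
    (E ε fun p : Nat.Primes => tt f p * tt g p * zr τ p) ≤
      Real.log ‖CC (rc f) (rc g) (((1 + ε : ℝ) : ℂ) + τ * Complex.I)‖ + K2 := by
  set s : ℂ := ((1 + ε : ℝ) : ℂ) + τ * Complex.I with hs'
  have hre : s.re = 1 + ε := by rw [hs']; simp
  have hs : 1 < s.re := by rw [hre]; linarith
  have hP := hasProd_CC hf hg hs
  have hsum1 : Summable fun p : Nat.Primes => tt f p * tt g p * (((p : ℕ) : ℂ) ^ (-s)).re := by
    refine Summable.of_norm_bounded ((Nat.Primes.summable_rpow.2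
      (by linarith : -(1 + ε) < -1)).mul_left 4) fun p => ?_
    rw [norm_mul, norm_mul, Real.norm_eq_abs, Real.norm_eq_abs, Real.norm_eq_abs]
    have h1 : |(((p : ℕ) : ℂ) ^ (-s)).re| ≤ ((p : ℕ) : ℝ) ^ (-(1 + ε)) := by
      refine (Complex.abs_re_le_norm _).trans (le_of_eq ?_)
      rw [norm_p, hre]
    refine mul_le_mul ?_ h1 (abs_nonneg _) (by norm_num)
    calc |tt f p| * |tt g p| ≤ 2 * 2 :=
          mul_le_mul (tt_le hf p.2) (tt_le hg p.2) (abs_nonneg _) (by norm_num)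
      _ = 4 := by norm_num
  have hs2 : Summable fun p : Nat.Primes => ((p : ℕ) : ℝ) ^ (-2 : ℝ) :=
    Nat.Primes.summable_rpow.2 (by norm_num)
  have hle2 : ∀ p : Nat.Primes, (((p : ℕ) : ℝ) ^ (-s.re)) ^ 2 ≤ ((p : ℕ) : ℝ) ^ (-2 : ℝ) := by
    intro p
    have hp1 : (1 : ℝ) ≤ (p : ℕ) := by exact_mod_cast p.2.one_le
    rw [← Real.rpow_natCast, ← Real.rpow_mul (by positivity)]
    refine Real.rpow_le_rpow_of_exponent_le hp1 ?_
    push_cast
    linarith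
  have hsum2 : Summable fun p : Nat.Primes => (((p : ℕ) : ℝ) ^ (-s.re)) ^ 2 :=
    Summable.of_nonneg_of_le (fun p => by positivity) hle2 hs2
  have hsum3 := hsum1.sub (hsum2.mul_left KD)
  have hfin : ∀ T : Finset Nat.Primes, Real.exp (∑ p ∈ T, (tt f p * tt g p *
      (((p : ℕ) : ℂ) ^ (-s)).re - KD * (((p : ℕ) : ℝ) ^ (-s.re)) ^ 2)) ≤
      ‖∏ p ∈ T, LF f g s p‖ := by
    intro T
    rw [norm_prod, Real.exp_sum]
    refine Finset.prod_le_prod (fun p _ => (Real.exp_pos _).le) fun p _ => ?_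
    obtain ⟨h1, h2⟩ := LF_lower hf hg hs p
    rw [← Real.exp_log h1]
    exact Real.exp_le_exp.2 h2
  have hlim1 : Tendsto (fun T : Finset Nat.Primes => Real.exp (∑ p ∈ T, (tt f p * tt g p *
      (((p : ℕ) : ℂ) ^ (-s)).re - KD * (((p : ℕ) : ℝ) ^ (-s.re)) ^ 2))) atTop
      (𝓝 (Real.exp (∑' p : Nat.Primes, (tt f p * tt g p *
      (((p : ℕ) : ℂ) ^ (-s)).re - KD * (((p : ℕ) : ℝ) ^ (-s.re)) ^ 2)))) :=
    (Real.continuous_exp.tendsto _).comp hsum3.hasSum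
  have hlim2 : Tendsto (fun T : Finset Nat.Primes => ‖∏ p ∈ T, LF f g s p‖) atTop
      (𝓝 ‖CC (rc f) (rc g) s‖) := Tendsto.norm hP
  have h3 := le_of_tendsto_of_tendsto' hlim1 hlim2 hfin
  have h4 := Real.log_le_log (Real.exp_pos _) h3
  rw [Real.log_exp, hsum1.tsum_sub (hsum2.mul_left KD), tsum_mul_left] at h4
  have h5 : ∑' p : Nat.Primes, (((p : ℕ) : ℝ) ^ (-s.re)) ^ 2 ≤
      ∑' p : Nat.Primes, ((p : ℕ) : ℝ) ^ (-2 : ℝ) := hsum2.tsum_le_tsum hle2 hs2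
  have h6 := mul_le_mul_of_nonneg_left h5 KD_nonneg
  unfold K2
  have h7 : (E ε fun p : Nat.Primes => tt f p * tt g p * zr τ p) =
      ∑' p : Nat.Primes, tt f p * tt g p * (((p : ℕ) : ℂ) ^ (-s)).re := by
    unfold E
    refine tsum_congr fun p => ?_
    rw [hs', re_cpow]
    ring
  rw [h7]
  linarith

/-- **One-sided orthogonality at every height `τ ≠ 0`.** -/
theorem cross_le_t (hf : Hecke f) (hg : Hecke g) {τ : ℝ} (hτ : τ ≠ 0) :
    ∃ C : ℝ, ∀ᶠ ε : ℝ in 𝓝[>] 0, (E ε fun p : Nat.Primes => tt f p * tt g p * zr τ p) ≤ C := by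
  obtain ⟨C, hC⟩ := CC_bdd hf hg hτ
  refine ⟨Real.log (|C| + 1) + K2, ?_⟩
  filter_upwards [shift_nhds.eventually hC, self_mem_nhdsWithin] with ε h3 h4
  have hε : (0 : ℝ) < ε := h4
  refine (E_le_log hf hg τ hε).trans ?_
  have h5 : Real.log ‖CC (rc f) (rc g) (((1 + ε : ℝ) : ℂ) + τ * Complex.I)‖ ≤
      Real.log (|C| + 1) := by
    rcases eq_or_lt_of_le (norm_nonneg (CC (rc f) (rc g) (((1 + ε : ℝ) : ℂ) + τ * Complex.I)))
      with h6 | h6
    · rw [← h6, Real.log_zero]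
      exact Real.log_nonneg (by have := abs_nonneg C; linarith)
    · refine Real.log_le_log h6 ?_
      have := le_abs_self C
      linarith
  linarith

end

end Pool.Agent.Y149.CR
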