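import Pool.Agent.Y149.CR.Eul
import Pool.Agent.Y149.CR.Bes
import Pool.Agent.Y677.SM.NF

/-! The one-sided Gram matrix of the traces of Frobenius of modular elliptic curves over the
rationals, at all heights. -/

set_option autoImplicit false

namespace Pool.Agent.Y149.CR

open Filter Topology ComplexConjugate CongruenceSubgroup NumberField IsDedekindDomain
open Pool.Agent.W540.BE Pool.Agent.Y677.SM Pool.Agent.W353.L1
open Pool.Agent.TH941 (Hecke)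
open Pool.Agent.H341R2 (E lam lam_bounded)
open Pool.Agent.Y722.RS (S2 rc tt cross_le self_le)

theorem EP_rat (ε : ℝ) (φ : ℕ → ℝ) :
    EP (nm ℚ) ε (fun v => φ (nm ℚ v)) = E ε (fun p : Nat.Primes => φ p) := by
  unfold EP E
  rw [← (Rat.HeightOneSpectrum.primesEquiv (R := 𝓞 ℚ)).tsum_eq]
  refine tsum_congr fun v => ?_
  simp only [nm_rat]

theorem zr_zero {p : ℕ} : zr 0 p = 1 := by
  unfold zr
  simp

theorem prod_re (t u : HeightOneSpectrum (𝓞 ℚ) → ℝ) (τ τ' : ℝ) (v : HeightOneSpectrum (𝓞 ℚ)) :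
    (((t v : ℂ) * zz τ v) * conj ((u v : ℂ) * zz τ' v)).re =
      t v * u v * zr (τ - τ') (nm ℚ v) := by
  have e1 : ((t v : ℂ) * zz τ v) * conj ((u v : ℂ) * zz τ' v) =
      ((t v * u v : ℝ) : ℂ) * (zz τ v * conj (zz τ' v)) := by
    rw [map_mul, Complex.conj_ofReal]
    push_cast
    ring
  rw [e1, Pool.Agent.Y677.SM.conj_zz, Pool.Agent.Y677.SM.zz_mul, Complex.re_ofReal_mul]
  rfl

section
variable {M₁ M₂ : ℕ} [NeZero M₁] [NeZero M₂] {f : S2 M₁} {g : S2 M₂}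
  {t u : HeightOneSpectrum (𝓞 ℚ) → ℝ}

/-- the comparison with the series over prime numbers -/
theorem gram_change (ht : ∀ v, |t v| ≤ 2) (hu : ∀ v, |u v| ≤ 2)
    (ht' : ∀ᶠ v in cofinite, t v = tt f (nm ℚ v)) (hu' : ∀ᶠ v in cofinite, u v = tt g (nm ℚ v))
    (τ τ' : ℝ) :
    ∃ C : ℝ, ∀ ε : ℝ, 0 < ε →
      |(EP (nm ℚ) ε fun v => (((t v : ℂ) * zz τ v) * conj ((u v : ℂ) * zz τ' v)).re) -
        E ε fun p : Nat.Primes => tt f p * tt g p * zr (τ - τ') p| ≤ C := by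
  have hb : ∀ v : HeightOneSpectrum (𝓞 ℚ),
      |(((t v : ℂ) * zz τ v) * conj ((u v : ℂ) * zz τ' v)).re| ≤ 4 := by
    intro v
    have hv : 0 < nm ℚ v := Pool.Agent.W353.L1.nm_pos v
    rw [prod_re, abs_mul, abs_mul]
    have h1 := mul_le_mul (ht v) (hu v) (abs_nonneg _) (by norm_num)
    have h2 := mul_le_mul h1 (abs_zr_le (τ - τ') hv) (abs_nonneg _) (by norm_num)
    linarith
  obtain ⟨C, hC⟩ := EP_change (N := nm ℚ) (normSys (F := ℚ)) hb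
    (ψ := fun v => tt f (nm ℚ v) * tt g (nm ℚ v) * zr (τ - τ') (nm ℚ v)) (by
      filter_upwards [ht', hu'] with v h1 h2
      rw [prod_re, h1, h2])
  refine ⟨C, fun ε hε => ?_⟩
  have h3 := hC ε hε
  rwa [EP_rat ε (fun n => tt f n * tt g n * zr (τ - τ') n)] at h3

/-- different heights -/
theorem gram_height (hf : Hecke f) (hg : Hecke g) (ht : ∀ v, |t v| ≤ 2) (hu : ∀ v, |u v| ≤ 2)
    (ht' : ∀ᶠ v in cofinite, t v = tt f (nm ℚ v)) (hu' : ∀ᶠ v in cofinite, u v = tt g (nm ℚ v))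
    {τ τ' : ℝ} (h : τ ≠ τ') :
    ∃ C : ℝ, ∀ᶠ ε : ℝ in 𝓝[>] 0,
      (EP (nm ℚ) ε fun v => (((t v : ℂ) * zz τ v) * conj ((u v : ℂ) * zz τ' v)).re) ≤ C := by
  obtain ⟨C, hC⟩ := gram_change ht hu ht' hu' τ τ'
  obtain ⟨C', hC'⟩ := cross_le_t hf hg (sub_ne_zero.2 h)
  refine ⟨C' + C, ?_⟩
  filter_upwards [hC', self_mem_nhdsWithin] with ε h1 h2
  have h3 := (abs_le.1 (hC ε h2)).2
  linarith

/-- different forms -/
theorem gram_form (hf : Hecke f) (hg : Hecke g) (ht : ∀ v, |t v| ≤ 2) (hu : ∀ v, |u v| ≤ 2)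
    (ht' : ∀ᶠ v in cofinite, t v = tt f (nm ℚ v)) (hu' : ∀ᶠ v in cofinite, u v = tt g (nm ℚ v))
    {p : ℕ} (hp : p.Prime) (h1 : ¬ p ∣ M₁) (h2 : ¬ p ∣ M₂) (hne : rc f p ≠ rc g p) (τ : ℝ) :
    ∃ C : ℝ, ∀ᶠ ε : ℝ in 𝓝[>] 0,
      (EP (nm ℚ) ε fun v => (((t v : ℂ) * zz τ v) * conj ((u v : ℂ) * zz τ v)).re) ≤ C := by
  obtain ⟨C, hC⟩ := gram_change ht hu ht' hu' τ τ
  obtain ⟨C', hC'⟩ := cross_le hf hg hp h1 h2 hne
  refine ⟨C' + C, ?_⟩
  filter_upwards [hC', self_mem_nhdsWithin] with ε h1 h2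
  have h3 := (abs_le.1 (hC ε h2)).2
  simp only [sub_self, zr_zero, mul_one] at h3
  linarith

/-- the diagonal -/
theorem gram_self (hf : Hecke f) (ht : ∀ v, |t v| ≤ 2)
    (ht' : ∀ᶠ v in cofinite, t v = tt f (nm ℚ v)) (τ : ℝ) :
    ∃ C : ℝ, ∀ᶠ ε : ℝ in 𝓝[>] 0,
      (EP (nm ℚ) ε fun v => (((t v : ℂ) * zz τ v) * conj ((t v : ℂ) * zz τ v)).re) ≤
        lam ε + C := by
  obtain ⟨C, hC⟩ := gram_change ht ht ht' ht' τ τ
  obtain ⟨C', hC'⟩ := self_le hf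
  obtain ⟨C'', hC''⟩ := lam_bounded
  refine ⟨C'' + C' + C, ?_⟩
  filter_upwards [hC', hC'', self_mem_nhdsWithin] with ε h1 h4 h2
  have h3 := (abs_le.1 (hC ε h2)).2
  have h5 := (abs_le.1 h4).1
  simp only [sub_self, zr_zero, mul_one] at h3
  have h6 : Real.log (1 / ε) = -Real.log ε := by rw [one_div, Real.log_inv]
  rw [h6] at h1
  linarith

end

end Pool.Agent.Y149.CR
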