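import Pool.Agent.Y149.CR.Prog

/-! The lattice sums `∑_{(m,n) ≡ (a,b)} (y / |mw+n|²)^s` on the line `Re s = 1`, away from the real
point: they are `O(y²)`. -/

set_option autoImplicit false

namespace Pool.Agent.Y149.CR

open MeasureTheory Filter Topology UpperHalfPlane
open scoped ENNReal
open Pool.Agent.W165.RS (qf qf_eq zt Zf Zf_le C2 C2_ne_top An An_eq Hn_eq)

noncomputable section

variable {N : ℕ} [NeZero N]

theorem cpow_exp {x : ℝ} (hx : 0 < x) (s : ℂ) : (x : ℂ) ^ s = Complex.exp ((Real.log x : ℂ) * s) := by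
  rw [Complex.cpow_def_of_ne_zero (by exact_mod_cast hx.ne'), Complex.ofReal_log hx.le]

theorem div_cpow_real {y q : ℝ} (hy : 0 < y) (hq : 0 < q) (s : ℂ) :
    ((y / q : ℝ) : ℂ) ^ s = (y : ℂ) ^ s * (q : ℂ) ^ (-s) := by
  rw [cpow_exp (div_pos hy hq), cpow_exp hy, cpow_exp hq, ← Complex.exp_add,
    Real.log_div hy.ne' hq.ne']
  congr 1
  push_cast
  ring

theorem norm_cpow_real {x : ℝ} (hx : 0 < x) (s : ℂ) : ‖(x : ℂ) ^ s‖ = x ^ s.re :=
  Complex.norm_cpow_eq_rpow_re_of_pos hx s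

theorem qf_pos (w : ℍ) {m n : ℤ} (h : ((m, n) : ℤ × ℤ) ≠ (0, 0)) : 0 < qf w m n := by
  rw [qf_eq]
  by_cases hm : m = 0
  · have hn : n ≠ 0 := by
      rintro rfl
      exact h (by rw [hm])
    subst hm
    have : (0 : ℝ) < (n : ℝ) ^ 2 := by positivity
    simpa using this
  · have h1 : (0 : ℝ) < |(m : ℝ)| := by positivity
    have h2 := mul_pos h1 w.im_pos
    positivity

/-- one term -/
def zc (a b : ZMod N) (w : ℍ) (s : ℂ) (p : ℤ × ℤ) : ℂ :=
  if p ≠ (0, 0) ∧ (p.1 : ZMod N) = a ∧ (p.2 : ZMod N) = b then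
    ((w.im / qf w p.1 p.2 : ℝ) : ℂ) ^ s else 0

theorem ofReal_norm_zc (a b : ZMod N) (w : ℍ) (s : ℂ) (m n : ℤ) :
    ENNReal.ofReal ‖zc a b w s (m, n)‖ = ENNReal.ofReal (w.im ^ s.re) * zt a b w s.re m n := by
  unfold zc zt
  by_cases h : ((m, n) : ℤ × ℤ) ≠ (0, 0) ∧ (m : ZMod N) = a ∧ (n : ZMod N) = b
  · rw [if_pos h, if_pos h]
    have hq := qf_pos w h.1
    have hy := w.im_pos
    rw [norm_cpow_real (div_pos hy hq), ← ENNReal.ofReal_mul (by positivity),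
      Real.div_rpow hy.le hq.le, Real.rpow_neg hq.le]
    rfl
  · rw [if_neg h, if_neg h]
    simp

theorem Zf_ne_top (a b : ZMod N) (w : ℍ) {σ : ℝ} (h1 : 1 < σ) (h2 : σ ≤ 2) : Zf a b w σ ≠ ∞ := by
  refine ne_top_of_le_ne_top ?_ (Zf_le a b w h1 h2)
  have hA : An a σ ≠ ∞ := by
    rw [An_eq, Hn_eq a (by linarith), Hn_eq (-a) (by linarith)]
    exact ENNReal.add_ne_top.2 ⟨ENNReal.ofReal_ne_top, ENNReal.ofReal_ne_top⟩
  exact ENNReal.add_ne_top.2 ⟨C2_ne_top, ENNReal.add_ne_top.2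
    ⟨ENNReal.mul_ne_top ENNReal.ofReal_ne_top hA, ENNReal.mul_ne_top ENNReal.ofReal_ne_top C2_ne_top⟩⟩

theorem summable_zc (a b : ZMod N) (w : ℍ) {s : ℂ} (h1 : 1 < s.re) (h2 : s.re ≤ 2) :
    Summable fun p => ‖zc a b w s p‖ := by
  have h3 : ∑' p : ℤ × ℤ, ENNReal.ofReal ‖zc a b w s p‖ ≠ ∞ := by
    have e : ∑' p : ℤ × ℤ, ENNReal.ofReal ‖zc a b w s p‖ =
        ENNReal.ofReal (w.im ^ s.re) * Zf a b w s.re := by
      have e1 : ∀ p : ℤ × ℤ, ENNReal.ofReal ‖zc a b w s p‖ =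
          ENNReal.ofReal (w.im ^ s.re) * zt a b w s.re p.1 p.2 := fun p => ofReal_norm_zc a b w s p.1 p.2
      simp_rw [e1]
      rw [ENNReal.tsum_mul_left, ENNReal.tsum_prod']
      rfl
    rw [e]
    exact ENNReal.mul_ne_top ENNReal.ofReal_ne_top (Zf_ne_top a b w h1 h2)
  have h4 := ENNReal.summable_toReal h3
  refine h4.congr fun p => ?_
  rw [ENNReal.toReal_ofReal (norm_nonneg _)]

/-- `|m|^{-2}` -/
def im2 (m : ℤ) : ℝ := if m ≠ 0 then |(m : ℝ)| ^ (-2 : ℝ) else 0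

theorem im2_nonneg (m : ℤ) : 0 ≤ im2 m := by unfold im2; split_ifs <;> positivity

theorem summable_im2 : Summable im2 := by
  have h : Summable (fun m : ℤ => |(m:ℝ)| ^ (-2 : ℝ)) := Real.summable_abs_int_rpow (by norm_num)
  refine Summable.of_nonneg_of_le im2_nonneg (fun m => ?_) h
  unfold im2
  split_ifs
  · exact le_rfl
  · positivity

/-- the constant -/
def c2 : ℝ := ∑' m, im2 m

theorem c2_nonneg : 0 ≤ c2 := tsum_nonneg im2_nonneg

theorem rpow_le_im2 {m : ℤ} (hm : m ≠ 0) {σ : ℝ} (hσ : 1 ≤ σ) : |(m:ℝ)| ^ (-(2 * σ)) ≤ im2 m := by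
  unfold im2
  rw [if_pos hm]
  exact Pool.Agent.W165.RS.rpow_le_sq hm hσ

theorem inner_zero (a b : ZMod N) (w : ℍ) {s : ℂ} (hs : 1 < s.re) :
    ‖∑' n : ℤ, zc a b w s (0, n)‖ ≤ w.im ^ s.re * c2 := by
  have hy := w.im_pos
  have hb : ∀ n : ℤ, ‖zc a b w s (0, n)‖ ≤ w.im ^ s.re * im2 n := by
    intro n
    unfold zc
    split_ifs with h
    · have hn : n ≠ 0 := by
        rintro rfl
        exact h.1 rfl
      have hq := qf_pos w h.1
      rw [norm_cpow_real (div_pos hy hq), Real.div_rpow hy.le hq.le, div_eq_mul_inv]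
      refine mul_le_mul_of_nonneg_left ?_ (by positivity)
      refine le_trans (le_of_eq ?_) (rpow_le_im2 hn hs.le)
      rw [qf_eq]
      simp only [Int.cast_zero, zero_mul, abs_zero, zero_add, ne_eq, OfNat.ofNat_ne_zero,
        not_false_eq_true, zero_pow, add_zero]
      rw [← sq_abs, ← Real.rpow_natCast, ← Real.rpow_mul (abs_nonneg _), ← Real.rpow_neg
        (abs_nonneg _)]
      congr 1
    · rw [norm_zero]
      exact mul_nonneg (by positivity) (im2_nonneg n)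
  exact tsum_of_norm_bounded (summable_im2.hasSum.mul_left _) hb

theorem inner_ne (a b : ZMod N) (w : ℍ) (s : ℂ) {m : ℤ} (hm : (m : ZMod N) ≠ a) :
    ∑' n : ℤ, zc a b w s (m, n) = 0 := by
  have : ∀ n : ℤ, zc a b w s (m, n) = 0 := by
    intro n
    unfold zc
    rw [if_neg (by tauto)]
  simp [this]

theorem inner_eq (a b : ZMod N) (w : ℍ) (s : ℂ) {m : ℤ} (hm0 : m ≠ 0) (hm : (m : ZMod N) = a) :
    ∑' n : ℤ, zc a b w s (m, n) = (w.im : ℂ) ^ s * ∑' j : ℤ,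
      (((m * w.re + (b.val : ℝ) + N * j) ^ 2 + (|(m:ℝ)| * w.im) ^ 2 : ℝ) : ℂ) ^ (-s) := by
  have hN : (N : ℤ) ≠ 0 := by exact_mod_cast NeZero.ne N
  have hinj : Function.Injective (fun j : ℤ => (b.val : ℤ) + N * j) := by
    intro j j' h
    simp only at h
    exact mul_left_cancel₀ hN (by linarith)
  have hsupp : Function.support (fun n : ℤ => zc a b w s (m, n)) ⊆
      Set.range (fun j : ℤ => (b.val : ℤ) + N * j) := by
    intro n hn
    rw [Function.mem_support] at hn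
    have hnb : (n : ZMod N) = b := by
      by_contra hnb
      apply hn
      unfold zc
      rw [if_neg (by tauto)]
    have h1 : ((n : ℤ) : ZMod N) = ((b.val : ℤ) : ZMod N) := by
      rw [hnb, Int.cast_natCast, ZMod.natCast_zmod_val]
    rw [ZMod.intCast_eq_intCast_iff] at h1
    obtain ⟨k, hk⟩ := h1.symm.dvd
    exact ⟨k, by simp only; linarith⟩
  rw [← hinj.tsum_eq hsupp, ← tsum_mul_left]
  refine tsum_congr fun j => ?_
  have hp : ((m, (b.val : ℤ) + N * j) : ℤ × ℤ) ≠ (0, 0) := by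
    intro h
    exact hm0 (congrArg Prod.fst h)
  have hq := qf_pos w hp
  unfold zc
  rw [if_pos]
  · simp only
    rw [div_cpow_real w.im_pos hq, qf_eq]
    push_cast
    ring_nf
  · refine ⟨hp, hm, ?_⟩
    push_cast
    simp

/-- the factor of the main term -/
def kk (N : ℕ) (w : ℍ) (s : ℂ) : ℂ :=
  (w.im : ℂ) ^ s * (((N : ℝ)⁻¹ : ℝ) : ℂ) * (w.im : ℂ) ^ (1 - 2 * s) * BC s

theorem norm_kk_le (w : ℍ) {s : ℂ} (hs : 1 ≤ s.re) : ‖kk N w s‖ ≤ Real.pi * w.im ^ (1 - s.re) := by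
  have hy := w.im_pos
  have hN1 : (1:ℝ) ≤ N := by exact_mod_cast Nat.pos_of_ne_zero (NeZero.ne N)
  have hNi : (N : ℝ)⁻¹ ≤ 1 := inv_le_one_of_one_le₀ hN1
  unfold kk
  rw [norm_mul, norm_mul, norm_mul, norm_cpow_real hy, norm_cpow_real hy, Complex.norm_real,
    Real.norm_of_nonneg (by positivity : 0 ≤ (N : ℝ)⁻¹)]
  have e : (1 - 2 * s).re = 1 - 2 * s.re := by simp
  rw [e]
  have e2 : w.im ^ s.re * w.im ^ (1 - 2 * s.re) = w.im ^ (1 - s.re) := by
    rw [← Real.rpow_add hy]; congr 1; ring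
  calc w.im ^ s.re * (N : ℝ)⁻¹ * w.im ^ (1 - 2 * s.re) * ‖BC s‖
      ≤ w.im ^ s.re * 1 * w.im ^ (1 - 2 * s.re) * Real.pi := by
        gcongr
        exact norm_BC_le hs
    _ = Real.pi * w.im ^ (1 - s.re) := by rw [mul_one, e2, mul_comm]

theorem inner_bound (a b : ZMod N) (w : ℍ) {s : ℂ} (hs : 1 < s.re) {m : ℤ}
    (hm0 : m ≠ 0) (hm : (m : ZMod N) = a) :
    ‖∑' n : ℤ, zc a b w s (m, n) - kk N w s * am a s m‖ ≤
      2 * ‖s‖ * Real.pi * w.im ^ (-s.re) * im2 m := by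
  have hy := w.im_pos
  have hm1 : (0:ℝ) < |(m:ℝ)| := by positivity
  have hα : 0 < |(m:ℝ)| * w.im := mul_pos hm1 hy
  have hN : (0:ℝ) < N := by exact_mod_cast Nat.pos_of_ne_zero (NeZero.ne N)
  obtain ⟨h1, h2⟩ := sum_line hs.le hN hα (m * w.re + (b.val : ℝ))
  rw [inner_eq a b w s hm0 hm]
  have e1 : kk N w s * am a s m = (w.im : ℂ) ^ s * ((((N : ℝ)⁻¹ : ℝ) : ℂ) *
      ((|(m:ℝ)| * w.im : ℝ) : ℂ) ^ (1 - 2 * s) * BC s) := by
    unfold kk am
    rw [if_pos ⟨hm0, hm⟩, Complex.ofReal_mul, Complex.mul_cpow_ofReal_nonneg hm1.le hy.le]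
    ring
  rw [e1, ← mul_sub, norm_mul, norm_cpow_real hy]
  refine (mul_le_mul_of_nonneg_left h2 (by positivity)).trans ?_
  have h3 := rpow_le_im2 hm0 hs.le
  have e2 : w.im ^ s.re * w.im ^ (-(2 * s.re)) = w.im ^ (-s.re) := by
    rw [← Real.rpow_add hy]; congr 1; ring
  calc w.im ^ s.re * (2 * ‖s‖ * Real.pi * (|(m:ℝ)| * w.im) ^ (-(2 * s.re)))
      = 2 * ‖s‖ * Real.pi * (w.im ^ s.re * w.im ^ (-(2 * s.re))) * |(m:ℝ)| ^ (-(2 * s.re)) := by
        rw [Real.mul_rpow hm1.le hy.le]; ring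
    _ ≤ _ := by
        rw [e2]
        exact mul_le_mul_of_nonneg_left h3 (by positivity)

/-- **Upper bound for the lattice sum.** -/
theorem lat_le (a b : ZMod N) (w : ℍ) {s : ℂ} (h1 : 1 < s.re) (h2 : s.re ≤ 2) :
    ‖∑' p, zc a b w s p‖ ≤ w.im ^ s.re * c2 + 2 * ‖s‖ * Real.pi * w.im ^ (-s.re) * c2 +
      Real.pi * w.im ^ (1 - s.re) * ‖∑' m, am a s m‖ := by
  have hy := w.im_pos
  have hs := (summable_zc a b w h1 h2).of_norm
  have hsi := hs.prod
  have ham := (hasSum_am a h1).summable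
  have hd := hsi.sub (ham.mul_left (kk N w s))
  have e : ∑' p, zc a b w s p = (∑' m, (∑' n, zc a b w s (m, n) - kk N w s * am a s m)) +
      kk N w s * ∑' m, am a s m := by
    rw [hs.tsum_prod, hsi.tsum_sub (ham.mul_left (kk N w s)), tsum_mul_left]
    ring
  rw [e]
  refine (norm_add_le _ _).trans ?_
  have hb : ∀ m : ℤ, ‖∑' n, zc a b w s (m, n) - kk N w s * am a s m‖ ≤
      (if m = 0 then w.im ^ s.re * c2 else 0) + 2 * ‖s‖ * Real.pi * w.im ^ (-s.re) * im2 m := by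
    intro m
    by_cases hm : m = 0
    · subst hm
      have e2 : am a s 0 = 0 := by unfold am; rw [if_neg (by tauto)]
      rw [if_pos rfl, e2, mul_zero, sub_zero]
      have := inner_zero a b w h1
      have h3 := im2_nonneg 0
      have h4 : 0 ≤ 2 * ‖s‖ * Real.pi * w.im ^ (-s.re) * im2 0 := by positivity
      linarith
    · rw [if_neg hm, zero_add]
      by_cases hma : (m : ZMod N) = a
      · exact inner_bound a b w h1 hm hma
      · have e2 : am a s m = 0 := by unfold am; rw [if_neg (by tauto)]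
        rw [e2, mul_zero, sub_zero, inner_ne a b w s hma, norm_zero]
        have h3 := im2_nonneg m
        positivity
  have hsum : HasSum (fun m : ℤ => (if m = 0 then w.im ^ s.re * c2 else 0) +
      2 * ‖s‖ * Real.pi * w.im ^ (-s.re) * im2 m) (w.im ^ s.re * c2 +
      2 * ‖s‖ * Real.pi * w.im ^ (-s.re) * c2) :=
    (hasSum_ite_eq 0 (w.im ^ s.re * c2)).add (summable_im2.hasSum.mul_left _)
  refine add_le_add (tsum_of_norm_bounded hsum hb) ?_
  rw [norm_mul]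
  exact mul_le_mul_of_nonneg_right (norm_kk_le w h1.le) (norm_nonneg _)

/-- **The lattice sums are `O(y²)` on the line, away from the real point.** -/
theorem lat_bdd {τ : ℝ} (hτ : τ ≠ 0) : ∃ C : ℝ, 0 ≤ C ∧ ∀ᶠ σ : ℝ in 𝓝[>] 1,
    ∀ (a b : ZMod N) (w : ℍ), 1 / 2 ≤ w.im →
      ‖∑' p, zc a b w (σ + τ * Complex.I) p‖ ≤ C * w.im ^ 2 := by
  obtain ⟨A, hA, hev⟩ := am_bdd (N := N) hτ
  have hc := c2_nonneg
  have hπ := Real.pi_pos
  refine ⟨4 * c2 + 2 * (2 + |τ|) * Real.pi * 16 * c2 + Real.pi * 8 * A, by positivity, ?_⟩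
  have h12 : ∀ᶠ s : ℝ in 𝓝[>] 1, 1 < s ∧ s ≤ 2 := by
    filter_upwards [Ioc_mem_nhdsGT (show (1:ℝ) < 2 by norm_num)] with s hs
    exact hs
  filter_upwards [hev, h12] with σ h1 h2 a b w hw
  have hre : ((σ : ℂ) + τ * Complex.I).re = σ := by simp
  have hb := lat_le a b w (s := σ + τ * Complex.I) (by rw [hre]; exact h2.1)
    (by rw [hre]; exact h2.2)
  rw [hre] at hb
  refine hb.trans ?_
  have hn : ‖(σ : ℂ) + τ * Complex.I‖ ≤ 2 + |τ| := by
    refine (norm_add_le _ _).trans ?_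
    rw [norm_mul, Complex.norm_real, Complex.norm_real, Complex.norm_I, mul_one, Real.norm_eq_abs,
      Real.norm_eq_abs, abs_of_pos (by linarith [h2.1])]
    linarith [h2.2]
  have p1 := Pool.Agent.Y722.RS.rpow_s_le hw h2.1 h2.2
  have p2 := Pool.Agent.Y722.RS.rpow_neg_s_le hw h2.1 h2.2
  have p3 := Pool.Agent.Y722.RS.rpow_up hw h2.1 h2.2
  have p4 : w.im ^ (1 - σ) ≤ 8 * w.im ^ 2 := by nlinarith [h2.2]
  have hy := w.im_pos
  calc w.im ^ σ * c2 + 2 * ‖(σ : ℂ) + τ * Complex.I‖ * Real.pi * w.im ^ (-σ) * c2 +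
      Real.pi * w.im ^ (1 - σ) * ‖∑' m, am a (σ + τ * Complex.I) m‖
      ≤ (4 * w.im ^ 2) * c2 + 2 * (2 + |τ|) * Real.pi * (16 * w.im ^ 2) * c2 +
        Real.pi * (8 * w.im ^ 2) * A := by
        gcongr
        exact h1 a
    _ = _ := by ring

end

end Pool.Agent.Y149.CR
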