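import Pool.Agent.Y149.CR.Gram
import Pool.Agent.Y677.SM.Final

/-! All modular elliptic curves over the rationals, all heights and all virtual Artin representations
together. -/

set_option autoImplicit false
set_option linter.unusedSectionVars false

namespace Pool.Agent.Y149.CR

open Complex Filter Topology ComplexConjugate NumberField IsDedekindDomain Polynomial
open Pool.Agent.H341R2 (lam lam_tendsto)
open Pool.Agent.W401.Cheb Pool.Agent.W540.BE Pool.Agent.W353.L1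
open Pool.Agent.TH941 (Hecke)
open Pool.Agent.W165.RS (ac)
open Pool.Agent.Y722.RS (S2 rc tt)
open Pool.Agent.Y677.SM (EP_change EP_lam_bound tr_le_two tr_eq_trv ec_main' herm herm_lim)

section
variable {ι : Type*} (W : ι → WeierstrassCurve (𝓞 ℚ)) (hΔ : ∀ i, (W i).Δ ≠ 0)
  (M : ι → ℕ) [∀ i, NeZero (M i)] (f : ∀ i, S2 (M i)) (hf : ∀ i, Hecke (f i))
  (hpt : ∀ i, ∀ᶠ v : HeightOneSpectrum (𝓞 ℚ) in cofinite, ac (f i) (nm ℚ v) = (trv (W i) v : ℂ))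
  (hne : ∀ i j, i ≠ j → {v : HeightOneSpectrum (𝓞 ℚ) | trv (W i) v ≠ trv (W j) v}.Infinite)

include hf hpt hne in
/-- two curves which are not isogenous have different eigenvalues at a good prime -/
theorem exists_prime {i j : ι} (hij : i ≠ j) : ∃ p : ℕ, p.Prime ∧ ¬ p ∣ M i ∧ ¬ p ∣ M j ∧
    rc (f i) p ≠ rc (f j) p := by
  have hfin : ∀ m : ℕ, m ≠ 0 → {v : HeightOneSpectrum (𝓞 ℚ) | nm ℚ v ∣ m}.Finite := by
    intro m hm
    have h1 : {p : Nat.Primes | (p : ℕ) ∣ m}.Finite := by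
      have h2 : {n : ℕ | n ∣ m}.Finite := (Set.finite_le_nat m).subset fun n hn =>
        Nat.le_of_dvd (Nat.pos_of_ne_zero hm) hn
      exact h2.preimage (f := fun p : Nat.Primes => (p : ℕ)) fun a _ b _ hab => Subtype.ext hab
    refine (h1.preimage (f := Rat.HeightOneSpectrum.primesEquiv (R := 𝓞 ℚ))
      (Equiv.injective _).injOn).subset fun v hv => ?_
    change ((Rat.HeightOneSpectrum.primesEquiv v : Nat.Primes) : ℕ) ∣ m
    rw [← Pool.Agent.Y677.SM.nm_rat]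
    exact hv
  have h1 : ∀ᶠ v : HeightOneSpectrum (𝓞 ℚ) in cofinite, ¬ nm ℚ v ∣ M i := by
    rw [Filter.eventually_cofinite]
    simp only [not_not]
    exact hfin _ (NeZero.ne _)
  have h2 : ∀ᶠ v : HeightOneSpectrum (𝓞 ℚ) in cofinite, ¬ nm ℚ v ∣ M j := by
    rw [Filter.eventually_cofinite]
    simp only [not_not]
    exact hfin _ (NeZero.ne _)
  have h3 : ∃ᶠ v : HeightOneSpectrum (𝓞 ℚ) in cofinite, trv (W i) v ≠ trv (W j) v := by
    rw [Filter.frequently_cofinite_iff_infinite]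
    exact hne i j hij
  obtain ⟨v, hv, ⟨⟨h4, h5⟩, h6⟩, h7⟩ :=
    (h3.and_eventually (((h1.and h2).and (hpt i)).and (hpt j))).exists
  refine ⟨nm ℚ v, ?_, h4, h5, ?_⟩
  · rw [Pool.Agent.Y677.SM.nm_rat]
    exact (Rat.HeightOneSpectrum.primesEquiv v).2
  · intro h8
    unfold rc at h8
    rw [h6, h7, Complex.intCast_re, Complex.intCast_re] at h8
    exact hv (by exact_mod_cast h8)

include hf hpt hne in
/-- **The one-sided Gram matrix.** -/
theorem gram_all (α : ι → HeightOneSpectrum (𝓞 ℚ) → Fin 2 → ℂ)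
    (hα : ∀ i, ∀ᶠ v in cofinite, ∀ j, ‖α i v j‖ = (nm ℚ v : ℝ) ^ (1 / 2 : ℝ))
    (hsum : ∀ i, ∀ᶠ v in cofinite, ∑ j, α i v j = (trv (W i) v : ℂ)) (a b : ι × ℝ)
    [Decidable (a = b)] :
    ∃ C : ℝ, ∀ᶠ ε : ℝ in 𝓝[>] 0,
      (EP (nm ℚ) ε fun v => (((tr (1 / 2) (α a.1) v : ℂ) * zz a.2 v) *
        conj ((tr (1 / 2) (α b.1) v : ℂ) * zz b.2 v)).re) ≤
        (if a = b then 1 else 0) * lam ε + C := by
  have ht : ∀ i, ∀ᶠ v in cofinite, tr (1 / 2) (α i) v = tt (f i) (nm ℚ v) := by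
    intro i
    filter_upwards [tr_eq_trv (hα i) (hsum i), hpt i] with v h1 h2
    rw [h1]
    unfold tt rc
    rw [h2, Complex.intCast_re]
  split_ifs with h
  · subst h
    obtain ⟨C, hC⟩ := gram_self (hf a.1) (tr_le_two (α a.1)) (ht a.1) a.2
    exact ⟨C, hC.mono fun ε h1 => by rwa [one_mul]⟩
  · rcases eq_or_ne a.2 b.2 with h2 | h2
    · have h1 : a.1 ≠ b.1 := fun h1 => h (Prod.ext h1 h2)
      obtain ⟨p, hp, hp1, hp2, hp3⟩ := exists_prime W M f hf hpt hne h1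
      rw [← h2]
      obtain ⟨C, hC⟩ := gram_form (hf a.1) (hf b.1) (tr_le_two (α a.1)) (tr_le_two (α b.1))
        (ht a.1) (ht b.1) hp hp1 hp2 hp3 a.2
      exact ⟨C, hC.mono fun ε h1 => by rwa [zero_mul, zero_add]⟩
    · obtain ⟨C, hC⟩ := gram_height (hf a.1) (hf b.1) (tr_le_two (α a.1)) (tr_le_two (α b.1))
        (ht a.1) (ht b.1) h2
      exact ⟨C, hC.mono fun ε h1 => by rwa [zero_mul, zero_add]⟩

include hΔ hf hpt hne in
/-- **The joint Bessel inequality** for all curves, all heights and all virtual representations. -/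
theorem main {κ : Type} [Fintype κ] (n : κ → ℕ)
    (ρ : ∀ k, Representation ℂ (GK ℚ) (Fin (n k) → ℂ))
    (hopen : ∀ k, ∃ U : Subgroup (GK ℚ), IsOpen (U : Set (GK ℚ)) ∧ ∀ u ∈ U, ρ k u = 1)
    (B : ι → κ → HeightOneSpectrum (𝓞 ℚ) → ℂ[X])
    (hB : ∀ i k, ∀ᶠ v in cofinite, ∀ σ : GK ℚ, IsFrob v σ → ∀ z : ℂ,
      (B i k v).eval z = LinearMap.det (1 - ((trv (W i) v : ℂ) * z) • ρ k σ⁻¹ +
        (((nm ℚ v : ℕ) : ℂ) * z ^ 2) • (ρ k σ⁻¹) ^ 2))
    (hB0 : ∀ i k (τ : ℝ) v, (B i k v).eval (((nm ℚ v : ℕ) : ℂ) ^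
      (-(((1 / 2 : ℝ) : ℂ) + 1 + τ * I : ℂ))) ≠ 0)
    (L : ι → κ → ℂ → ℂ)
    (hL : ∀ i k, ∀ s : ℂ, (1 / 2 : ℝ) + 1 < s.re →
      L i k s = ∏' v, ((B i k v).eval (((nm ℚ v : ℕ) : ℂ) ^ (-s)))⁻¹)
    (x : ι → κ → ℝ → ℝ → ℝ) (hx : ∀ i k τ ε, x i k τ ε =
      Real.log ‖L i k (((1 / 2 : ℝ) : ℂ) + 1 + τ * I + ε)‖ / Real.log (1 / ε)) :
    (∀ i k (τ : ℝ), ∀ᶠ ε : ℝ in 𝓝[>] 0, L i k (((1 / 2 : ℝ) : ℂ) + 1 + τ * I + ε) ≠ 0) ∧
    (∀ (S : Finset (ι × ℝ)) (C η : ℝ), 0 < η → ∀ᶠ ε : ℝ in 𝓝[>] 0, ∀ c : κ → ℝ,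
      (∀ k, |c k| ≤ C) → ∑ a ∈ S, (max (∑ k, c k * x a.1 k a.2 ε) 0) ^ 2 ≤
        ∑ k, ∑ l, (c k * c l) * (Module.finrank ℂ ((ρ k).IntertwiningMap (ρ l)) : ℝ) + η) := by
  classical
  -- a common open normal subgroup
  set Φ : GK ℚ →* (∀ k : κ, Module.End ℂ (Fin (n k) → ℂ)) := MonoidHom.pi fun k : κ => ρ k with hΦ
  set U : Subgroup (GK ℚ) := Φ.ker with hU
  have hUmem : ∀ g : GK ℚ, g ∈ U ↔ ∀ k, ρ k g = 1 := by
    intro g
    rw [hU, MonoidHom.mem_ker, funext_iff]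
    exact ⟨fun h k => h k, fun h k => h k⟩
  have hkeropen : ∀ k, IsOpen {g : GK ℚ | ρ k g = 1} := by
    intro k
    obtain ⟨V, hV, hVρ⟩ := hopen k
    have h1 : V ≤ (ρ k).ker := fun u hu => hVρ u hu
    exact Subgroup.isOpen_mono h1 hV
  have hUopen : IsOpen (U : Set (GK ℚ)) := by
    have : (U : Set (GK ℚ)) = ⋂ k, {g : GK ℚ | ρ k g = 1} := by
      ext g
      rw [SetLike.mem_coe, hUmem, Set.mem_iInter]
      rfl
    rw [this]
    exact isOpen_iInter_of_finite hkeropen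
  have hfinQ : Finite (GK ℚ ⧸ U) := Subgroup.quotient_finite_of_isOpen U hUopen
  have hUρ : ∀ k, ∀ u ∈ U, ρ k u = 1 := fun k u hu => (hUmem u).1 hu k
  have hN : NormSys (nm ℚ) := normSys
  have hex := fun i => ec_main' (W i) (hΔ i) n ρ (B i) (hB i)
  choose α hα hreal hsum hdet using hex
  choose σ hσ using exists_isFrob (F := ℚ)
  have hsz : ∀ i k (τ : ℝ),
      (∀ᶠ ε : ℝ in 𝓝[>] 0, L i k (((1 / 2 : ℝ) : ℂ) + 1 + τ * I + ε) ≠ 0) ∧
      Tendsto (fun ε : ℝ => (EP (nm ℚ) ε fun v => ((ρ k).character (σ v)⁻¹ *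
        ((tr (1 / 2) (α i) v : ℂ) * zz τ v)).re) / lam ε - x i k τ ε) (𝓝[>] 0) (𝓝 0) := by
    intro i k τ
    have h1 := size_corr (1 / 2) (α i) (hα i) (hreal i) U (ρ k) (hUρ k) τ (B i k) (hdet i k)
      (hB0 i k τ) (L i k) (hL i k) σ hσ
    refine ⟨h1.1, h1.2.congr fun ε => ?_⟩
    rw [hx]
    congr 2
    refine Pool.Agent.Y677.SM.EP_congr fun v => ?_
    congr 1
    ring
  refine ⟨fun i k τ => (hsz i k τ).1, fun S C η hη => ?_⟩
  have hzero : ∀ v : HeightOneSpectrum (𝓞 ℚ), zz (0 : ℝ) v = 1 := by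
    intro v
    unfold zz
    simp
  have hb := bessel hN lam_tendsto (EP_one ℚ) S (Finset.univ : Finset κ)
    (fun a v => (tr (1 / 2) (α a.1) v : ℂ) * zz a.2 v)
    (fun k v => (ρ k).character (σ v)⁻¹) (bu := 2) (bG := fun k => (n k : ℝ))
    (fun a v => by
      rw [norm_mul, norm_zz, mul_one, Complex.norm_real, Real.norm_eq_abs]
      exact tr_le_two (α a.1) v)
    (fun k v => norm_char_le U (ρ k) (hUρ k) _)
    (fun a _ b _ => gram_all W M f hf hpt hne α hα hsum a b)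
    (fun k l => (Module.finrank ℂ ((ρ k).IntertwiningMap (ρ l)) : ℝ))
    (fun k _ l _ => by
      have h1 := herm_lim U hUopen σ hσ (ρ k) (hUρ k) 0 (ρ l) (hUρ l) 0
      have e1 : herm (ρ k) 0 (ρ l) 0 =
          (Module.finrank ℂ ((ρ k).IntertwiningMap (ρ l)) : ℝ) := by
        unfold herm
        rw [if_pos rfl]
      rw [e1] at h1
      refine h1.congr fun ε => ?_
      congr 1
      refine Pool.Agent.Y677.SM.EP_congr fun v => ?_
      rw [hzero, mul_one, mul_one])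
    (fun a k ε => x a.1 k a.2 ε) (fun a _ k _ => (hsz a.1 k a.2).2) C hη
  filter_upwards [hb] with ε h c hc
  exact h c fun k _ => hc k

end

end Pool.Agent.Y149.CR
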