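import Pool.Agent.Y149.CR.Main

/-! From the sizes to the orders. -/

set_option autoImplicit false

namespace Pool.Agent.Y149.CR

open Complex Filter Topology
open Pool.Agent.H341R2 (path_tendsto')
open Pool.Agent.W540.BE (order_of_size)

/-- the orders are the limits of the sizes -/
theorem order_lim {L Λ : ℂ → ℂ} {e : ℂ} {w : ℝ} (he : e.re = w)
    (hnz : ∀ᶠ ε : ℝ in 𝓝[>] 0, L (e + ε) ≠ 0)
    (hΛ : MeromorphicAt Λ e ∧ ∀ᶠ s in 𝓝 e, w < s.re → Λ s = L s) :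
    ∃ m : ℤ, meromorphicOrderAt Λ e = m ∧
      Tendsto (fun ε : ℝ => Real.log ‖L (e + ε)‖ / Real.log (1 / ε)) (𝓝[>] 0) (𝓝 (-(m : ℝ))) := by
  have hev : ∀ᶠ ε : ℝ in 𝓝[>] 0, Λ (e + ε) = L (e + ε) := by
    have h4 := (path_tendsto' e).eventually hΛ.2
    filter_upwards [h4, self_mem_nhdsWithin] with ε h5 h6
    have hε : (0 : ℝ) < ε := h6
    refine h5 ?_
    rw [Complex.add_re, Complex.ofReal_re, he]
    linarith
  have hne : ∀ᶠ ε : ℝ in 𝓝[>] 0, Λ (e + ε) ≠ 0 := by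
    filter_upwards [hev, hnz] with ε h5 h6
    rw [h5]
    exact h6
  obtain ⟨m, hm1, hm2⟩ := order_of_size hΛ.1 hne
  refine ⟨m, hm1, hm2.congr' ?_⟩
  filter_upwards [hev] with ε h5
  rw [h5]

/-- **The orders**, from the inequality for the sizes. -/
theorem orders {A κ : Type*} [Fintype κ] (h : κ → κ → ℝ) (L : A → κ → ℂ → ℂ) (e : A → ℂ) {w : ℝ}
    (he : ∀ a, (e a).re = w) (hnz : ∀ a k, ∀ᶠ ε : ℝ in 𝓝[>] 0, L a k (e a + ε) ≠ 0)
    (hbes : ∀ (S : Finset A) (C η : ℝ), 0 < η → ∀ᶠ ε : ℝ in 𝓝[>] 0, ∀ c : κ → ℝ,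
      (∀ k, |c k| ≤ C) →
      ∑ a ∈ S, (max (∑ k, c k * (Real.log ‖L a k (e a + ε)‖ / Real.log (1 / ε))) 0) ^ 2 ≤
        ∑ k, ∑ l, (c k * c l) * h k l + η)
    (T : Set A) (Λ : A → κ → ℂ → ℂ)
    (hΛ : ∀ a ∈ T, ∀ k, MeromorphicAt (Λ a k) (e a) ∧
      ∀ᶠ s in 𝓝 (e a), w < s.re → Λ a k s = L a k s) :
    ∃ m : A → κ → ℤ, (∀ a ∈ T, ∀ k, meromorphicOrderAt (Λ a k) (e a) = m a k) ∧
      ∀ S : Finset A, (∀ a ∈ S, a ∈ T) → ∀ c : κ → ℝ,
        ∑ a ∈ S, (max (∑ k, c k * m a k) 0) ^ 2 ≤ ∑ k, ∑ l, (c k * c l) * h k l := by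
  have hex : ∀ a k, ∃ m : ℤ, a ∈ T → meromorphicOrderAt (Λ a k) (e a) = m ∧
      Tendsto (fun ε : ℝ => Real.log ‖L a k (e a + ε)‖ / Real.log (1 / ε)) (𝓝[>] 0)
        (𝓝 (-(m : ℝ))) := by
    intro a k
    by_cases ha : a ∈ T
    · obtain ⟨m, h1, h2⟩ := order_lim (he a) (hnz a k) (hΛ a ha k)
      exact ⟨m, fun _ => ⟨h1, h2⟩⟩
    · exact ⟨0, fun h => absurd h ha⟩
  choose m hm using hex
  refine ⟨m, fun a ha k => (hm a k ha).1, fun S hS c => ?_⟩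
  refine le_of_forall_pos_le_add fun η hη => ?_
  have hcont : Continuous fun y : ℝ => (max y 0) ^ 2 := by fun_prop
  have hlim : Tendsto (fun ε : ℝ => ∑ a ∈ S, (max (∑ k, (-c k) *
      (Real.log ‖L a k (e a + ε)‖ / Real.log (1 / ε))) 0) ^ 2) (𝓝[>] 0)
      (𝓝 (∑ a ∈ S, (max (∑ k, (-c k) * (-(m a k : ℝ))) 0) ^ 2)) :=
    tendsto_finsetSum _ fun a ha => (hcont.tendsto _).comp
      (tendsto_finsetSum _ fun k _ => ((hm a k (hS a ha)).2).const_mul (-c k))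
  simp only [neg_mul_neg] at hlim
  refine le_of_tendsto hlim ?_
  filter_upwards [hbes S (∑ k, |c k|) η hη] with ε h4
  have h5 := h4 (fun k => -c k) fun k => by
    rw [abs_neg]
    exact Finset.single_le_sum (f := fun k => |c k|) (fun k _ => abs_nonneg _) (Finset.mem_univ k)
  simpa only [neg_mul_neg] using h5

/-- the number of exceptions -/
theorem card_le {A κ : Type*} [Fintype κ] {T : Set A} {m : A → κ → ℤ} {h : κ → κ → ℕ}
    (hS : ∀ S : Finset A, (∀ a ∈ S, a ∈ T) → ∀ c : κ → ℝ,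
      ∑ a ∈ S, (max (∑ k, c k * m a k) 0) ^ 2 ≤ ∑ k, ∑ l, (c k * c l) * (h k l : ℝ))
    (c : κ → ℤ) :
    {a ∈ T | 0 < ∑ k, c k * m a k}.Finite ∧
      ({a ∈ T | 0 < ∑ k, c k * m a k}.ncard : ℤ) ≤ ∑ k, ∑ l, (c k * c l) * (h k l : ℤ) := by
  classical
  set Q : ℤ := ∑ k, ∑ l, (c k * c l) * (h k l : ℤ) with hQ
  have key : ∀ S : Finset A, (∀ a ∈ S, a ∈ {a ∈ T | 0 < ∑ k, c k * m a k}) → (S.card : ℤ) ≤ Q := by
    intro S hS'
    have h1 := hS S (fun a ha => (hS' a ha).1) (fun k => (c k : ℝ))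
    have h2 : (S.card : ℝ) ≤ ∑ a ∈ S, (max (∑ k, (c k : ℝ) * m a k) 0) ^ 2 := by
      rw [Finset.card_eq_sum_ones, Nat.cast_sum]
      refine Finset.sum_le_sum fun a ha => ?_
      have h3 := (hS' a ha).2
      have h4 : (1 : ℤ) ≤ ∑ k, c k * m a k := h3
      have h5 : (1 : ℝ) ≤ ∑ k, (c k : ℝ) * m a k := by exact_mod_cast h4
      have h6 : (1 : ℝ) ≤ max (∑ k, (c k : ℝ) * m a k) 0 := h5.trans (le_max_left _ _)
      push_cast
      nlinarith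
    have h3 := h2.trans h1
    have h4 : (∑ k, ∑ l, ((c k : ℝ) * c l) * (h k l : ℝ)) = ((Q : ℤ) : ℝ) := by
      rw [hQ]
      push_cast
      rfl
    rw [h4] at h3
    exact_mod_cast h3
  have hfin : {a ∈ T | 0 < ∑ k, c k * m a k}.Finite := by
    by_contra hinf
    obtain ⟨S, hS1, hS2⟩ := Set.Infinite.exists_subset_card_eq hinf (Q.toNat + 1)
    have h1 := key S fun a ha => hS1 ha
    rw [hS2] at h1
    push_cast at h1
    have h2 := Int.self_le_toNat Q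
    omega
  refine ⟨hfin, ?_⟩
  have h1 := key hfin.toFinset fun a ha => hfin.mem_toFinset.1 ha
  rwa [← Set.ncard_eq_toFinset_card _ hfin] at h1

end Pool.Agent.Y149.CR
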