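import Pool.Agent.Y149.CR.Dir
import Pool.Agent.Y722.RS.Dbdd

/-! The Rankin-Selberg series of two eigenforms is bounded near `1 + iτ`, `τ ≠ 0`. -/

set_option autoImplicit false

namespace Pool.Agent.Y149.CR

open MeasureTheory Filter Topology UpperHalfPlane CongruenceSubgroup
open scoped ENNReal MatrixGroups Modular ModularForm
open Pool.Agent.W165.RS (EE ac ac_zero)
open Pool.Agent.Y722.RS (S2 Sm Sm_add Sm_restr Sm_of rc rc_eq restr ac_add_smul gg_eq)
open Pool.Agent.TH941 (gg gg_nonneg Hecke)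

noncomputable section

section
variable {N : ℕ} [NeZero N]

theorem LC_lower (N : ℕ) [NeZero N] {s : ℂ} (hs : 1 < s.re) : 1 / 4 ≤ ‖LC N s‖ := by
  classical
  set b : EE N := ⟨1, one_pos, Nat.coprime_one_left N⟩ with hb
  have hsum := summable_e (N := N) hs
  have h1 : LC N s = 1 + ∑' e : EE N, ite (e = b) 0 (((e.1 : ℕ) : ℂ) ^ (-(2 * s))) := by
    unfold LC
    rw [hsum.of_norm.tsum_eq_add_tsum_ite b]
    simp [hb]
  -- the comparison series
  set g : ℕ → ℝ := fun n => if n = 1 then 0 else 1 / (n : ℝ) ^ 2 with hg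
  have hgs : HasSum g (Real.pi ^ 2 / 6 - 1) := by
    have h2 := hasSum_ite_sub_hasSum hasSum_zeta_two 1
    rw [hg]
    simpa using h2
  have hg0 : ∀ n, 0 ≤ g n := fun n => by rw [hg]; simp only; split_ifs <;> positivity
  have h3 : ‖∑' e : EE N, ite (e = b) 0 (((e.1 : ℕ) : ℂ) ^ (-(2 * s)))‖ ≤ Real.pi ^ 2 / 6 - 1 := by
    have h4 : Summable fun e : EE N => g e.1 := hgs.summable.comp_injective Subtype.val_injective
    refine (tsum_of_norm_bounded h4.hasSum fun e => ?_).trans ?_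
    · rw [hg]
      simp only
      by_cases he : e = b
      · rw [if_pos he, norm_zero]
        split_ifs <;> positivity
      · have he1 : e.1 ≠ 1 := fun h => he (Subtype.ext h)
        rw [if_neg he, if_neg he1, norm_e]
        have he0 : (1 : ℝ) ≤ e.1 := by exact_mod_cast e.2.1
        rw [one_div, ← Real.rpow_natCast, ← Real.rpow_neg (by positivity)]
        exact Real.rpow_le_rpow_of_exponent_le he0 (by push_cast; linarith)
    · rw [← hgs.tsum_eq]
      exact tsum_comp_le_tsum_of_inj hgs.summable hg0 Subtype.val_injective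
  have hπ : Real.pi < 3.15 := Real.pi_lt_d2
  have hπ0 := Real.pi_pos
  have h5 : Real.pi ^ 2 < 10 := by nlinarith
  rw [h1]
  have h6 := norm_sub_norm_le (1 : ℂ) (-∑' e : EE N, ite (e = b) 0 (((e.1 : ℕ) : ℂ) ^ (-(2 * s))))
  rw [sub_neg_eq_add, norm_neg, norm_one] at h6
  linarith

theorem Ga_lower (τ : ℝ) : ∃ c : ℝ, 0 < c ∧ ∀ᶠ σ : ℝ in 𝓝[>] 1, c ≤ ‖Ga (σ + τ * Complex.I)‖ := by
  have hne : Ga (1 + τ * Complex.I) ≠ 0 := by
    unfold Ga
    refine mul_ne_zero ?_ (Complex.Gamma_ne_zero_of_re_pos (by simp))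
    rw [Ne, Complex.cpow_eq_zero_iff]
    intro h
    have := Real.pi_pos
    have h1 : (4 * Real.pi : ℝ) = 0 := by exact_mod_cast h.1
    linarith
  have hc : ContinuousAt Ga (1 + τ * Complex.I) := by
    unfold Ga
    refine ContinuousAt.mul ?_ ?_
    · refine ContinuousAt.const_cpow (by fun_prop) (Or.inl ?_)
      have := Real.pi_pos
      have h1 : (4 * Real.pi : ℝ) ≠ 0 := by positivity
      exact_mod_cast h1
    · have : ContinuousAt Complex.Gamma (1 + τ * Complex.I + 1) := by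
        refine (Complex.differentiableAt_Gamma _ fun m => ?_).continuousAt
        intro h
        have h1 := congrArg Complex.re h
        simp at h1
        have : (0 : ℝ) ≤ m := Nat.cast_nonneg m
        linarith
      exact ContinuousAt.comp (f := fun s : ℂ => s + 1) this (by fun_prop)
  have h1 := (hc.tendsto.comp (line_tendsto τ)).norm
  have hpos : 0 < ‖Ga (1 + τ * Complex.I)‖ := norm_pos_iff.2 hne
  refine ⟨_, half_pos hpos, ?_⟩
  filter_upwards [h1.eventually (lt_mem_nhds (half_lt_self hpos))] with σ hσ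
  exact hσ.le

/-- **The Dirichlet series is bounded.** -/
theorem SC_bdd {f : S2 N} (hf : Sm f) {τ : ℝ} (hτ : τ ≠ 0) : ∃ C : ℝ, ∀ᶠ σ : ℝ in 𝓝[>] 1,
    ‖SC f (σ + τ * Complex.I)‖ ≤ C := by
  obtain ⟨C, h1⟩ := X_bdd hf hτ
  obtain ⟨c, hc, h2⟩ := Ga_lower τ
  refine ⟨4 * C / c, ?_⟩
  filter_upwards [h1, h2, self_mem_nhdsWithin] with σ h3 h4 h5
  have hσ : (1 : ℝ) < σ := h5
  have h6 := LC_lower N (s := σ + τ * Complex.I) (by simpa using hσ)
  rw [norm_mul, norm_mul] at h3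
  rw [le_div_iff₀ hc]
  have h7 : 1 / 4 * (c * ‖SC f (σ + τ * Complex.I)‖) ≤ C :=
    le_trans (mul_le_mul h6 (mul_le_mul_of_nonneg_right h4 (norm_nonneg _)) (by positivity)
      (norm_nonneg _)) h3
  linarith

/-- the Dirichlet series of the products -/
def CC (a b : ℕ → ℝ) (s : ℂ) : ℂ := ∑' n : ℕ, ((a n * b n / n : ℝ) : ℂ) * (n : ℂ) ^ (-s)

/-- polarisation -/
theorem polar {h₁ h₂ : S2 N} (hs₁ : Sm h₁) (hs₂ : Sm h₂) (hr₁ : ∀ n, (ac h₁ n).im = 0)
    (hr₂ : ∀ n, (ac h₂ n).im = 0) {s : ℂ} (hs : 1 < s.re) :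
    SC (h₁ + (1 : ℂ) • h₂) s - SC (h₁ + (-1 : ℂ) • h₂) s = 4 * CC (rc h₁) (rc h₂) s := by
  unfold SC CC
  rw [← (summable_n (Sm_add hs₁ hs₂ (by simp)) hs).of_norm.tsum_sub
    (summable_n (Sm_add hs₁ hs₂ (by simp)) hs).of_norm, ← tsum_mul_left]
  refine tsum_congr fun n => ?_
  unfold gg
  rw [ac_add_smul, ac_add_smul, rc_eq hr₁, rc_eq hr₂, ← Complex.ofReal_one, ← Complex.ofReal_neg,
    ← Complex.ofReal_mul, ← Complex.ofReal_mul, ← Complex.ofReal_add, ← Complex.ofReal_add,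
    Complex.norm_real, Complex.norm_real, Real.norm_eq_abs, Real.norm_eq_abs, sq_abs, sq_abs]
  push_cast
  ring

end

/-- **The Rankin-Selberg series of two eigenforms is bounded near `1 + iτ`, `τ ≠ 0`.** -/
theorem CC_bdd {M₁ M₂ : ℕ} [NeZero M₁] [NeZero M₂] {f : S2 M₁} {g : S2 M₂} (hf : Hecke f)
    (hg : Hecke g) {τ : ℝ} (hτ : τ ≠ 0) :
    ∃ C : ℝ, ∀ᶠ σ : ℝ in 𝓝[>] 1, ‖CC (rc f) (rc g) (σ + τ * Complex.I)‖ ≤ C := by
  set f' : S2 (M₁ * M₂) := restr (M₁ * M₂) (dvd_mul_right _ _) f with hf'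
  set g' : S2 (M₁ * M₂) := restr (M₁ * M₂) (dvd_mul_left _ _) g with hg'
  have sf : Sm f' := Sm_restr _ _ (Sm_of hf)
  have sg : Sm g' := Sm_restr _ _ (Sm_of hg)
  obtain ⟨C1, h1⟩ := SC_bdd (Sm_add sf sg (u := 1) (by simp)) hτ
  obtain ⟨C2, h2⟩ := SC_bdd (Sm_add sf sg (u := -1) (by simp)) hτ
  refine ⟨(C1 + C2) / 4, ?_⟩
  filter_upwards [h1, h2, self_mem_nhdsWithin] with σ h3 h4 h5
  have hσ : (1 : ℝ) < σ := h5
  have h6 := polar sf sg hf.real hg.real (s := σ + τ * Complex.I) (by simpa using hσ)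
  have q1 : rc f' = rc f := rfl
  have q2 : rc g' = rc g := rfl
  rw [q1, q2] at h6
  have h7 := congrArg norm h6
  rw [norm_mul] at h7
  have h8 : ‖(4 : ℂ)‖ = 4 := by simp
  rw [h8] at h7
  have h9 := norm_sub_le (SC (f' + (1 : ℂ) • g') (σ + τ * Complex.I))
    (SC (f' + (-1 : ℂ) • g') (σ + τ * Complex.I))
  linarith

end

end Pool.Agent.Y149.CR
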