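import Pool.Agent.Y149.CR.EM
import Pool.Agent.Y722.RS.ZfB

/-! Sums over arithmetic progressions on the line `Re s = 1`, away from the real point. -/

set_option autoImplicit false

namespace Pool.Agent.Y149.CR

open MeasureTheory Filter Topology
open Pool.Agent.Y722.RS (two_tendsto)

noncomputable section

variable {N : ℕ} [NeZero N]

/-- the indicator of a class -/
def ind (c : ZMod N) (j : ZMod N) : ℂ := if j = c then 1 else 0

theorem line_tendsto (τ : ℝ) : Tendsto (fun σ : ℝ => (σ : ℂ) + τ * Complex.I) (𝓝[>] 1)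
    (𝓝 (1 + τ * Complex.I)) := by
  have h : Continuous fun σ : ℝ => (σ : ℂ) + τ * Complex.I := by fun_prop
  have := h.tendsto 1
  rw [Complex.ofReal_one] at this
  exact this.mono_left nhdsWithin_le_nhds

theorem bdd_of_tendsto {f : ℝ → ℂ} {l : Filter ℝ} {c : ℂ} (h : Tendsto f l (𝓝 c)) :
    ∀ᶠ s in l, ‖f s‖ ≤ ‖c‖ + 1 := by
  filter_upwards [h.norm.eventually_lt_const (lt_add_one ‖c‖)] with s hs using hs.le

theorem prog_bdd (c : ZMod N) {τ : ℝ} (hτ : τ ≠ 0) : ∃ C : ℝ, ∀ᶠ σ : ℝ in 𝓝[>] 1,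
    ‖LSeries (fun n : ℕ => ind c (n : ZMod N)) (σ + τ * Complex.I)‖ ≤ C := by
  have hne : (1 + τ * Complex.I : ℂ) ≠ 1 := by
    intro h
    have := congrArg Complex.im h
    simp at this
    exact hτ this
  have hd := (ZMod.differentiableAt_LFunction (ind c) (1 + τ * Complex.I : ℂ)
    (Or.inl hne)).continuousAt
  have h1 := hd.tendsto.comp (line_tendsto τ)
  refine ⟨‖ZMod.LFunction (ind c) (1 + τ * Complex.I)‖ + 1, ?_⟩
  filter_upwards [bdd_of_tendsto h1, self_mem_nhdsWithin] with σ h2 h3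
  have h4 : (1 : ℝ) < σ := h3
  rw [Function.comp_apply, ZMod.LFunction_eq_LSeries _ (by simpa using h4)] at h2
  exact h2

/-- term of the sum over the nonzero integers of a class -/
def am (a : ZMod N) (s : ℂ) (m : ℤ) : ℂ :=
  if m ≠ 0 ∧ (m : ZMod N) = a then ((|(m : ℝ)| : ℝ) : ℂ) ^ (1 - 2 * s) else 0

theorem am_nat (a : ZMod N) (s : ℂ) (n : ℕ) :
    am a s (n : ℤ) = LSeries.term (fun n : ℕ => ind a (n : ZMod N)) (2 * s - 1) n := by
  unfold am LSeries.term ind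
  by_cases h1 : n = 0
  · subst h1; simp
  by_cases h2 : (n : ZMod N) = a
  · rw [if_pos ⟨by exact_mod_cast h1, by rw [Int.cast_natCast]; exact h2⟩, if_neg h1]
    simp only [h2, if_true]
    rw [Int.cast_natCast, abs_of_nonneg (by positivity : (0:ℝ) ≤ (n:ℝ)), Complex.ofReal_natCast,
      one_div, ← Complex.cpow_neg]
    congr 1; ring
  · rw [if_neg, if_neg h1]
    · simp only [h2, if_false, zero_div]
    · intro h'
      apply h2
      rw [← h'.2, Int.cast_natCast]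

theorem am_neg (a : ZMod N) (s : ℂ) (n : ℕ) :
    am a s (-((n : ℤ) + 1)) =
      LSeries.term (fun n : ℕ => ind (-a) (n : ZMod N)) (2 * s - 1) (n + 1) := by
  unfold am LSeries.term ind
  have e1 : ((-((n:ℤ) + 1) : ℤ) : ZMod N) = a ↔ ((n + 1 : ℕ) : ZMod N) = -a := by
    push_cast
    rw [neg_eq_iff_eq_neg]
  rw [if_neg (Nat.succ_ne_zero n)]
  by_cases h : ((n + 1 : ℕ) : ZMod N) = -a
  · rw [if_pos (show (-((n:ℤ) + 1)) ≠ 0 ∧ ((-((n:ℤ) + 1) : ℤ) : ZMod N) = a from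
      ⟨by omega, e1.2 h⟩)]
    simp only [h, if_true]
    push_cast
    rw [abs_neg, abs_of_nonneg (by positivity : (0:ℝ) ≤ (n:ℝ) + 1), one_div, ← Complex.cpow_neg]
    push_cast
    congr 1; ring
  · rw [if_neg (show ¬ ((-((n:ℤ) + 1)) ≠ 0 ∧ ((-((n:ℤ) + 1) : ℤ) : ZMod N) = a) from
      fun h' => h (e1.1 h'.2))]
    simp only [h, if_false, zero_div]

theorem hasSum_am (a : ZMod N) {s : ℂ} (hs : 1 < s.re) :
    HasSum (am a s) (LSeries (fun n : ℕ => ind a (n : ZMod N)) (2 * s - 1) +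
      LSeries (fun n : ℕ => ind (-a) (n : ZMod N)) (2 * s - 1)) := by
  have hre : 1 < (2 * s - 1).re := by simp; linarith
  have h1 : HasSum (fun n : ℕ => am a s (n : ℤ))
      (LSeries (fun n : ℕ => ind a (n : ZMod N)) (2 * s - 1)) := by
    simp_rw [am_nat]
    exact (ZMod.LSeriesSummable_of_one_lt_re (ind a) hre).hasSum
  have h2 : HasSum (fun n : ℕ => am a s (-((n : ℤ) + 1)))
      (LSeries (fun n : ℕ => ind (-a) (n : ZMod N)) (2 * s - 1)) := by
    simp_rw [am_neg]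
    have h3 := (ZMod.LSeriesSummable_of_one_lt_re (ind (-a)) hre)
    have h4 := (hasSum_nat_add_iff' 1).2 h3.hasSum
    simpa [LSeries] using h4
  exact HasSum.of_nat_of_neg_add_one h1 h2

/-- the sum over the nonzero integers of a class is bounded near `1 + iτ`, `τ ≠ 0` -/
theorem am_bdd {τ : ℝ} (hτ : τ ≠ 0) : ∃ C : ℝ, 0 ≤ C ∧ ∀ᶠ σ : ℝ in 𝓝[>] 1, ∀ a : ZMod N,
    ‖∑' m, am a (σ + τ * Complex.I) m‖ ≤ C := by
  have hτ2 : 2 * τ ≠ 0 := by positivity
  choose C hC using fun c : ZMod N => prog_bdd c hτ2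
  refine ⟨∑ c, 2 * |C c|, Finset.sum_nonneg fun c _ => by positivity, ?_⟩
  have hall : ∀ᶠ σ : ℝ in 𝓝[>] 1, ∀ c : ZMod N,
      ‖LSeries (fun n : ℕ => ind c (n : ZMod N)) ((2 * σ - 1 : ℝ) + (2 * τ : ℝ) * Complex.I)‖ ≤
        C c := by
    rw [eventually_all]
    intro c
    exact two_tendsto.eventually (hC c)
  filter_upwards [hall, self_mem_nhdsWithin] with σ h1 h2 a
  have h3 : (1 : ℝ) < σ := h2
  have hs : 1 < ((σ : ℂ) + τ * Complex.I).re := by simpa using h3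
  rw [(hasSum_am a hs).tsum_eq]
  have e : (2 * ((σ : ℂ) + τ * Complex.I) - 1) =
      ((2 * σ - 1 : ℝ) : ℂ) + ((2 * τ : ℝ) : ℂ) * Complex.I := by push_cast; ring
  rw [e]
  refine (norm_add_le _ _).trans ?_
  have h4 : |C a| ≤ ∑ c, |C c| :=
    Finset.single_le_sum (f := fun c => |C c|) (fun c _ => abs_nonneg _) (Finset.mem_univ a)
  have h5 : |C (-a)| ≤ ∑ c, |C c| :=
    Finset.single_le_sum (f := fun c => |C c|) (fun c _ => abs_nonneg _) (Finset.mem_univ (-a))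
  have h6 := (h1 a).trans (le_abs_self _)
  have h7 := (h1 (-a)).trans (le_abs_self _)
  rw [← Finset.mul_sum]
  linarith

end

end Pool.Agent.Y149.CR
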