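import Pool.Agent.Y149.CR.Comp
import Pool.Agent.W165.RS.Strip

/-! The strip integral of a cusp form of weight two, with an arbitrary function of the height. -/

set_option autoImplicit false

namespace Pool.Agent.Y149.CR

open MeasureTheory Filter Topology UpperHalfPlane CongruenceSubgroup
open scoped ENNReal MatrixGroups Modular ModularForm
open Pool.Agent.W165.RS (EE SS FF FF_meas measurableSet_SS lintegral_H extend_apply' horocycle ac
  ac_zero)
open Pool.Agent.Y722.RS (S2)

noncomputable section

variable {N : ℕ} [NeZero N]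

/-- the density -/
def dn (f : S2 N) (n : ℕ) (y : ℝ) : ℝ := ‖ac f n‖ ^ 2 * Real.exp (-(4 * Real.pi * n * y))

theorem dn_nonneg (f : S2 N) (n : ℕ) (y : ℝ) : 0 ≤ dn f n y := by unfold dn; positivity

theorem strip_gen (f : S2 N) {u : ℝ → ℝ≥0∞} (hu : Measurable u) (hu' : ∀ y, u y ≠ ∞) :
    ∫⁻ z in SS, FF f z * u z.im =
      ∑' n : ℕ, ∫⁻ y in Set.Ioi (0 : ℝ), ENNReal.ofReal (dn f n y) * u y := by
  have him : Measurable (fun z : ℍ => z.im) := continuous_im.measurable
  have hmH : Measurable (SS.indicator fun z : ℍ => FF f z * u z.im) :=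
    ((FF_meas f).mul (hu.comp him)).indicator measurableSet_SS
  rw [← lintegral_indicator measurableSet_SS, lintegral_H _ hmH]
  have h1 : ∀ y ∈ Set.Ioi (0:ℝ), (∫⁻ x : ℝ, Function.extend UpperHalfPlane.coe
      (SS.indicator fun z : ℍ => FF f z * u z.im) 0 (x + y * Complex.I) *
        ENNReal.ofReal ((1 / y) ^ 2)) = ∑' n : ℕ, ENNReal.ofReal (dn f n y) * u y := by
    intro y hy
    have hy' : 0 < y := hy
    have e1 : ∀ x : ℝ, Function.extend UpperHalfPlane.coe
      (SS.indicator fun z : ℍ => FF f z * u z.im) 0 (x + y * Complex.I) *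
        ENNReal.ofReal ((1 / y) ^ 2) = (Set.Ico (0:ℝ) 1).indicator (fun x : ℝ =>
        ENNReal.ofReal (‖f ⟨x + y * Complex.I, by simpa using hy'⟩‖ ^ 2) * u y) x := by
      intro x
      rw [extend_apply' _ x hy']
      by_cases hx : x ∈ Set.Ico (0:ℝ) 1
      · rw [Set.indicator_of_mem hx, Set.indicator_of_mem]
        · unfold FF
          have e2 : (⟨x + y * Complex.I, by simpa using hy'⟩ : ℍ).im = y := by
            simp [UpperHalfPlane.im]
          rw [e2, ENNReal.ofReal_mul (by positivity), mul_assoc, mul_assoc]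
          congr 1
          rw [mul_comm (u y), ← mul_assoc, ← ENNReal.ofReal_mul (by positivity)]
          have e5 : y ^ (2 : ℤ) * (1 / y) ^ 2 = 1 := by
            rw [show (2 : ℤ) = ((2 : ℕ) : ℤ) by rfl, zpow_natCast]
            field_simp
          rw [e5, ENNReal.ofReal_one, one_mul]
        · have e3 : (⟨x + y * Complex.I, by simpa using hy'⟩ : ℍ).re = x := by
            simp [UpperHalfPlane.re]
          show 0 ≤ _ ∧ _ < 1
          rw [e3]; exact hx
      · rw [Set.indicator_of_notMem hx, Set.indicator_of_notMem, zero_mul]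
        intro h
        have e3 : (⟨x + y * Complex.I, by simpa using hy'⟩ : ℍ).re = x := by
            simp [UpperHalfPlane.re]
        have h' : 0 ≤ (⟨x + y * Complex.I, by simpa using hy'⟩ : ℍ).re ∧
          (⟨x + y * Complex.I, by simpa using hy'⟩ : ℍ).re < 1 := h
        rw [e3] at h'
        exact hx h'
    simp_rw [e1]
    rw [lintegral_indicator measurableSet_Ico, lintegral_mul_const', horocycle f hy',
      ← ENNReal.tsum_mul_right]
    · rfl
    · exact hu' y
  rw [setLIntegral_congr_fun measurableSet_Ioi h1, lintegral_tsum]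
  intro n
  refine (Measurable.mul ?_ hu).aemeasurable
  unfold dn
  exact ENNReal.measurable_ofReal.comp (measurable_const.mul (by fun_prop))

/-- the complex function under the integral -/
def ps (f : S2 N) (s : ℂ) (e : ℕ) (n : ℕ) (y : ℝ) : ℂ :=
  (dn f n y : ℂ) * ((y / (e : ℝ) ^ 2 : ℝ) : ℂ) ^ s

/-- the value of the integral -/
def vv (f : S2 N) (s : ℂ) (e : ℕ) (n : ℕ) : ℂ :=
  (‖ac f n‖ ^ 2 : ℝ) * (e : ℂ) ^ (-(2 * s)) * ((1 / (4 * Real.pi * n : ℂ)) ^ (s + 1) *
    Complex.Gamma (s + 1))

theorem ps_integral (f : S2 N) {s : ℂ} (hs : 0 < s.re) {e : ℕ} (he : 0 < e) (n : ℕ) :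
    IntegrableOn (ps f s e n) (Set.Ioi 0) ∧ ∫ y in Set.Ioi (0 : ℝ), ps f s e n y = vv f s e n := by
  have he' : (0 : ℝ) < e := by exact_mod_cast he
  rcases Nat.eq_zero_or_pos n with hn | hn
  · subst hn
    have e1 : ∀ y, ps f s e 0 y = 0 := by
      intro y
      unfold ps dn
      rw [ac_zero]
      simp
    have e2 : vv f s e 0 = 0 := by
      unfold vv
      rw [ac_zero]
      simp
    constructor
    · have : ps f s e 0 = fun _ => 0 := funext e1
      rw [this]
      exact integrableOn_zero
    · simp_rw [e1]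
      rw [e2]
      simp
  · have hn' : (0 : ℝ) < n := by exact_mod_cast hn
    set r : ℝ := 4 * Real.pi * n with hr
    have hr0 : 0 < r := by positivity
    -- the integrand
    have e1 : ∀ y ∈ Set.Ioi (0 : ℝ), ps f s e n y = ((‖ac f n‖ ^ 2 : ℝ) : ℂ) *
        (e : ℂ) ^ (-(2 * s)) * ((y : ℂ) ^ (s + 1 - 1) * Complex.exp (-((r : ℂ) * y))) := by
      intro y hy
      have hy' : (0 : ℝ) < y := hy
      unfold ps dn
      rw [div_cpow_real hy' (by positivity), add_sub_cancel_right]
      have e3 : (((e : ℝ) ^ 2 : ℝ) : ℂ) ^ (-s) = (e : ℂ) ^ (-(2 * s)) := by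
        rw [sq, Complex.ofReal_mul, Complex.mul_cpow_ofReal_nonneg he'.le he'.le,
          Complex.ofReal_natCast, ← Complex.cpow_add _ _ (by exact_mod_cast he'.ne')]
        congr 1
        ring
      rw [e3]
      push_cast
      rw [hr]
      push_cast
      ring
    have hval := Complex.integral_cpow_mul_exp_neg_mul_Ioi (a := s + 1) (r := r)
      (by simp; linarith) hr0
    have hint : IntegrableOn (fun t : ℝ => (t : ℂ) ^ (s + 1 - 1) * Complex.exp (-((r : ℂ) * t)))
        (Set.Ioi 0) := by
      by_contra hcon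
      rw [integral_undef hcon] at hval
      have h1 : (1 / (r : ℂ)) ^ (s + 1) * Complex.Gamma (s + 1) ≠ 0 := by
        refine mul_ne_zero ?_ (Complex.Gamma_ne_zero_of_re_pos (by simp; linarith))
        rw [Ne, Complex.cpow_eq_zero_iff]
        intro h
        have : (1 / (r : ℂ)) ≠ 0 := by
          rw [one_div]
          exact inv_ne_zero (by exact_mod_cast hr0.ne')
        exact this h.1
      exact h1 hval.symm
    constructor
    · refine (integrableOn_congr_fun e1 measurableSet_Ioi).2 ?_
      exact hint.const_mul _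
    · rw [setIntegral_congr_fun measurableSet_Ioi e1, integral_const_mul, hval]
      unfold vv
      rw [hr]
      push_cast
      ring

end

end Pool.Agent.Y149.CR
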