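import Pool.Agent.Y149.CR.Lat
import Pool.Agent.Y722.RS.Cross

/-! Unfolding with an arbitrary function of the height, and all classes of lattice points. -/

set_option autoImplicit false

namespace Pool.Agent.Y149.CR

open MeasureTheory Filter Topology UpperHalfPlane
open scoped ENNReal MatrixGroups Modular
open Pool.Agent.W165.RS (qf EE RR iot gcd_iot iot_inj iot_ne cls mem_range_iot Inv GG GG_eq
  measurable_GG gam phi unfold_strip SS im_gam measurable_phi measurable_smul_SL inv_T measurable_qf)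

noncomputable section

variable {N : ℕ} [NeZero N]

/-- the weighted lattice sum -/
def Lw (a b : ZMod N) (z : ℍ) (u : ℝ → ℝ≥0∞) : ℝ≥0∞ :=
  ∑' p : ℤ × ℤ, if p ≠ (0, 0) ∧ (p.1 : ZMod N) = a ∧ (p.2 : ZMod N) = b then
    u (z.im / qf z p.1 p.2) else 0

theorem classes {F : ℍ → ℝ≥0∞} (hF : Inv N F) (u : ℝ → ℝ≥0∞) (z : ℍ) :
    ∑' e : EE N, ∑' r : RR, F (gam r • z) * u ((gam r • z).im / (e.1 : ℝ) ^ 2) =
      ∑ ab : ZMod N × ZMod N, GG F ab z * Lw ab.1 ab.2 z u := by
  have step1 : ∑' e : EE N, ∑' r : RR, F (gam r • z) * u ((gam r • z).im / (e.1 : ℝ) ^ 2) =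
      ∑' x : EE N × RR, GG F (cls (N := N) (iot x)) z * u (z.im / qf z (iot x).1 (iot x).2) := by
    rw [ENNReal.tsum_prod']
    refine tsum_congr fun e => tsum_congr fun r => ?_
    rw [GG_eq hF (e, r) z]
    have e1 : qf z (iot (e, r)).1 (iot (e, r)).2 = (e.1 : ℝ) ^ 2 * ‖(r.1.1 : ℂ) * z + r.1.2‖ ^ 2 := by
      unfold qf iot
      simp only
      rw [← mul_pow]
      congr 1
      rw [← Complex.norm_natCast e.1, ← norm_mul]
      congr 1
      push_cast
      ring
    rw [e1, im_gam, div_div, mul_comm (‖(r.1.1 : ℂ) * z + r.1.2‖ ^ 2)]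
  have hsupp : Function.support (fun p : ℤ × ℤ => if p ≠ (0, 0) then GG F (cls (N := N) p) z *
      u (z.im / qf z p.1 p.2) else 0) ⊆ Set.range (iot (N := N)) := by
    intro p hp
    rw [Function.mem_support] at hp
    by_cases h0 : p ≠ (0, 0)
    · rw [if_pos h0] at hp
      have h1 : GG F (cls (N := N) p) z ≠ 0 := by
        intro h; apply hp; rw [h, zero_mul]
      unfold GG at h1
      by_cases h : ∃ x : EE N × RR, cls (N := N) (iot x) = cls p
      · obtain ⟨x, hx⟩ := h
        exact mem_range_iot h0 hx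
      · rw [dif_neg h] at h1
        exact absurd rfl h1
    · rw [if_neg h0] at hp
      exact absurd rfl hp
  have step2 := iot_inj.tsum_eq hsupp
  have e2 : ∀ x : EE N × RR, (if iot x ≠ (0, 0) then GG F (cls (N := N) (iot x)) z *
      u (z.im / qf z (iot x).1 (iot x).2) else 0) =
      GG F (cls (N := N) (iot x)) z * u (z.im / qf z (iot x).1 (iot x).2) :=
    fun x => if_pos (iot_ne x)
  simp_rw [e2] at step2
  rw [step1, step2]
  have e3 : ∀ p : ℤ × ℤ, (if p ≠ (0, 0) then GG F (cls (N := N) p) z *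
      u (z.im / qf z p.1 p.2) else 0) =
      ∑ ab : ZMod N × ZMod N, GG F ab z * (if p ≠ (0, 0) ∧ (p.1 : ZMod N) = ab.1 ∧
        (p.2 : ZMod N) = ab.2 then u (z.im / qf z p.1 p.2) else 0) := by
    intro p
    by_cases h0 : p ≠ (0, 0)
    · rw [if_pos h0, Finset.sum_eq_single (cls (N := N) p)]
      · rw [if_pos ⟨h0, rfl, rfl⟩]
      · intro ab _ hab
        rw [if_neg, mul_zero]
        rintro ⟨-, h1, h2⟩
        exact hab (Prod.ext h1.symm h2.symm)
      · intro h; exact absurd (Finset.mem_univ _) h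
    · rw [if_neg h0]
      symm
      apply Finset.sum_eq_zero
      intro ab _
      rw [if_neg (fun h => h0 h.1), mul_zero]
  simp_rw [e3]
  rw [Summable.tsum_finsetSum (fun _ _ => ENNReal.summable)]
  refine Finset.sum_congr rfl fun ab _ => ?_
  rw [ENNReal.tsum_mul_left]
  rfl

theorem unfold_gen {F : ℍ → ℝ≥0∞} (hm : Measurable F) (hF : Inv N F) {u : ℝ → ℝ≥0∞}
    (hu : Measurable u) :
    ∑' e : EE N, ∫⁻ z in SS, F z * u (z.im / (e.1 : ℝ) ^ 2) =
      ∫⁻ z, phi z * ∑ ab : ZMod N × ZMod N, GG F ab z * Lw ab.1 ab.2 z u := by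
  have him : Measurable (fun z : ℍ => z.im) := continuous_im.measurable
  have hum : ∀ e : EE N, Measurable fun z : ℍ => F z * u (z.im / (e.1 : ℝ) ^ 2) := fun e =>
    hm.mul (hu.comp (him.div_const _))
  have h1 : ∀ e : EE N, ∫⁻ z in SS, F z * u (z.im / (e.1 : ℝ) ^ 2) =
      ∫⁻ z, phi z * ∑' r : RR, F (gam r • z) * u ((gam r • z).im / (e.1 : ℝ) ^ 2) := by
    intro e
    exact unfold_strip (fun z => F z * u (z.im / (e.1 : ℝ) ^ 2)) (hum e)
      (fun n z => by beta_reduce; rw [inv_T hF n z, ModularGroup.im_T_zpow_smul])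
  simp_rw [h1]
  rw [← lintegral_tsum]
  · refine lintegral_congr fun z => ?_
    rw [ENNReal.tsum_mul_left, classes hF u z]
  · intro e
    refine (measurable_phi.mul (Measurable.tsum fun r => ?_)).aemeasurable
    exact (hum e).comp (measurable_smul_SL _)

end

end Pool.Agent.Y149.CR
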